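import Mathlib

/-!
# An irreducible Lie algebra that contains all diagonal operators is everything
-/

set_option autoImplicit false
set_option linter.unusedSectionVars false

namespace Pool.Agent.PrimePow

open Module

variable {K V : Type*} [Field K] [CharZero K] [AddCommGroup V] [Module K V]
  [FiniteDimensional K V] {g : Submodule K (End K V)} {n : ℕ}

/-- matrix units -/
noncomputable def mu (v : Basis (Fin n) K V) (i j : Fin n) : End K V := (v.coord j).smulRight (v i)

theorem mu_apply (v : Basis (Fin n) K V) (i j : Fin n) (w : V) :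
    mu v i j w = v.repr w j • v i := rfl

theorem mu_mul (v : Basis (Fin n) K V) (i j k l : Fin n) :
    mu v i j * mu v k l = if j = k then mu v i l else 0 := by
  ext w
  rw [Module.End.mul_apply, mu_apply, mu_apply, map_smul, Basis.repr_self]
  split_ifs with h
  · rw [h, mu_apply, Finsupp.smul_single, smul_eq_mul, mul_one, Finsupp.single_eq_same]
  · rw [Finsupp.smul_apply, Finsupp.single_eq_of_ne h, smul_zero, zero_smul,
      LinearMap.zero_apply]

theorem mu_conj (v : Basis (Fin n) K V) (i j : Fin n) (x : End K V) :
    mu v i i * x * mu v j j = v.repr (x (v j)) i • mu v i j := by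
  ext w
  simp only [Module.End.mul_apply, mu_apply, LinearMap.smul_apply, map_smul, Finsupp.smul_apply,
    smul_eq_mul, smul_smul]
  rw [mul_comm]

theorem full_of_diag (hlie : ∀ x ∈ g, ∀ y ∈ g, x * y - y * x ∈ g)
    (hirr : ∀ U : Submodule K V, (∀ x ∈ g, ∀ w ∈ U, x w ∈ U) → U = ⊥ ∨ U = ⊤)
    (v : Basis (Fin n) K V) (hd : ∀ i, mu v i i ∈ g) (Z : End K V) : Z ∈ g := by
  -- matrix units with nonzero coefficients
  have h1 : ∀ x ∈ g, ∀ i j, i ≠ j → v.repr (x (v j)) i ≠ 0 → mu v i j ∈ g := by
    intro x hx i j hij hxij
    have e1 : mu v i i * mu v j j = 0 := by rw [mu_mul, if_neg hij]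
    have e2 : mu v j j * mu v i i = 0 := by rw [mu_mul, if_neg (Ne.symm hij)]
    have e3 : mu v i i * mu v i i = mu v i i := by rw [mu_mul, if_pos rfl]
    have e4 := hlie _ (hlie _ (hd i) _ hx) _ (hd j)
    have e5 := hlie _ (hd i) _ e4
    have e6 := g.add_mem e4 e5
    have e7 : (mu v i i * x - x * mu v i i) * mu v j j - mu v j j * (mu v i i * x - x * mu v i i) +
        (mu v i i * ((mu v i i * x - x * mu v i i) * mu v j j -
          mu v j j * (mu v i i * x - x * mu v i i)) -
        ((mu v i i * x - x * mu v i i) * mu v j j - mu v j j * (mu v i i * x - x * mu v i i)) *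
          mu v i i) = (2 : K) • (mu v i i * x * mu v j j) := by
      have a1 : x * mu v i i * mu v j j = 0 := by rw [mul_assoc, e1, mul_zero]
      have a2 : mu v j j * (mu v i i * x) = 0 := by rw [← mul_assoc, e2, zero_mul]
      have a3 : (mu v i i * x - x * mu v i i) * mu v j j -
          mu v j j * (mu v i i * x - x * mu v i i) =
          mu v i i * x * mu v j j + mu v j j * x * mu v i i := by
        rw [sub_mul, mul_sub, a1, a2, sub_zero, zero_sub, sub_neg_eq_add, mul_assoc (mu v j j)]
      rw [a3, mul_add, add_mul]
      have a4 : mu v i i * (mu v i i * x * mu v j j) = mu v i i * x * mu v j j := by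
        rw [← mul_assoc, ← mul_assoc, e3]
      have a5 : mu v i i * (mu v j j * x * mu v i i) = 0 := by
        rw [← mul_assoc, ← mul_assoc, e1, zero_mul, zero_mul]
      have a6 : mu v i i * x * mu v j j * mu v i i = 0 := by rw [mul_assoc, e2, mul_zero]
      have a7 : mu v j j * x * mu v i i * mu v i i = mu v j j * x * mu v i i := by
        rw [mul_assoc, e3]
      rw [a4, a5, a6, a7, two_smul]
      abel
    rw [e7, mu_conj, smul_smul] at e6
    have e8 := g.smul_mem (2 * v.repr (x (v j)) i)⁻¹ e6
    rwa [smul_smul, inv_mul_cancel₀ (mul_ne_zero two_ne_zero hxij), one_smul] at e8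
  have h2 : ∀ i j, mu v i j ∈ g := by
    intro i j
    obtain ⟨U, hU⟩ : ∃ U : Submodule K V, U = Submodule.span K (v '' {k | mu v k j ∈ g}) :=
      ⟨_, rfl⟩
    have hmem : ∀ w : V, w ∈ U ↔ ∀ k, v.repr w k ≠ 0 → mu v k j ∈ g := by
      intro w
      rw [hU, Basis.mem_span_image]
      constructor
      · intro h k hk
        exact h (by simpa using hk)
      · intro h k hk
        exact h k (by simpa using hk)
    have hst : ∀ x ∈ g, ∀ w ∈ U, x w ∈ U := by
      intro x hx w hw
      rw [hU] at hw
      induction hw using Submodule.span_induction with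
      | mem w hw =>
        obtain ⟨l, hl, rfl⟩ := hw
        rw [hmem]
        intro k hk
        have hl' : mu v l j ∈ g := hl
        by_cases hkl : k = l
        · rw [hkl]
          exact hl'
        · have e1 := h1 x hx k l hkl hk
          by_cases hkj : k = j
          · rw [hkj]
            exact hd j
          · have e2 := hlie _ e1 _ hl'
            rwa [mu_mul, if_pos rfl, mu_mul, if_neg (Ne.symm hkj), sub_zero] at e2
      | zero =>
        rw [map_zero]
        exact U.zero_mem
      | add a b _ _ ha hb =>
        rw [map_add]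
        exact U.add_mem ha hb
      | smul c a _ ha =>
        rw [map_smul]
        exact U.smul_mem c ha
    rcases hirr U hst with h | h
    · exfalso
      have e1 : v j ∈ U := by
        rw [hU]
        exact Submodule.subset_span ⟨j, hd j, rfl⟩
      rw [h, Submodule.mem_bot] at e1
      exact v.ne_zero j e1
    · have e1 : v i ∈ U := h ▸ Submodule.mem_top
      rw [hmem] at e1
      exact e1 i (by rw [Basis.repr_self, Finsupp.single_eq_same]; exact one_ne_zero)
  have h3 : Z = ∑ i, ∑ j, v.repr (Z (v j)) i • mu v i j := by
    refine v.ext fun k => ?_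
    simp only [LinearMap.sum_apply, LinearMap.smul_apply, mu_apply, Basis.repr_self]
    conv_lhs => rw [← v.sum_repr (Z (v k))]
    refine Finset.sum_congr rfl fun i _ => ?_
    rw [Finset.sum_eq_single k]
    · rw [Finsupp.single_eq_same, one_smul]
    · intro b _ hb
      rw [Finsupp.single_eq_of_ne hb, zero_smul, smul_zero]
    · intro h
      exact absurd (Finset.mem_univ k) h
  rw [h3]
  exact Submodule.sum_mem _ fun i _ => Submodule.sum_mem _ fun j _ => g.smul_mem _ (h2 i j)

end Pool.Agent.PrimePow
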