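import Pool.Agent.PrimePow.CartanEx
import Pool.Agent.PrimePow.Diag
import Pool.Agent.CoprimeSig.Core
import Pool.Agent.CoprimeSig.Trans
import Pool.Agent.TypeIV.Kinds

/-!
# Irreducible Lie algebras in prime power dimension

An irreducible Lie algebra generated by idempotents in dimension `l ^ k` which contains an
idempotent whose rank is prime to `l` is the algebra of all operators.
-/

set_option autoImplicit false
set_option linter.unusedSectionVars false

namespace Pool.Agent.PrimePow

open Module Pool.Agent.CoprimeSig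
open Pool.Agent.TypeIV.MX (IrrData)
open Pool.Agent.OddRank (trace_nondeg)

variable {K V : Type*} [Field K] [CharZero K] [IsAlgClosed K] [AddCommGroup V] [Module K V]
  [FiniteDimensional K V] {g : Submodule K (End K V)} {G : Set (End K V)}

/-- Schur -/
theorem schur_irr (hirr : ∀ U : Submodule K V, (∀ D ∈ g, ∀ w ∈ U, D w ∈ U) → U = ⊥ ∨ U = ⊤)
    (z : End K V) (hz : ∀ x ∈ g, z * x = x * z) : ∃ c : K, z = c • 1 := by
  rcases subsingleton_or_nontrivial V with h | h
  · exact ⟨0, LinearMap.ext fun w => Subsingleton.elim _ _⟩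
  obtain ⟨c, hc⟩ := Module.End.exists_eigenvalue z
  refine ⟨c, ?_⟩
  rcases hirr (LinearMap.ker (z - c • 1)) (fun D hD w hw => by
    rw [LinearMap.mem_ker] at hw ⊢
    rw [← Module.End.mul_apply, sub_mul, hz D hD, smul_mul_assoc, one_mul]
    have h1 : (D * z - c • D) w = D ((z - c • 1) w) := by
      simp
    rw [h1, hw, map_zero]) with h | h
  · exfalso
    obtain ⟨v, hv⟩ := hc.exists_hasEigenvector
    apply hv.2
    have h1 : v ∈ LinearMap.ker (z - c • 1) := by
      rw [LinearMap.mem_ker, LinearMap.sub_apply, hv.apply_eq_smul]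
      simp
    rwa [h, Submodule.mem_bot] at h1
  · rw [LinearMap.ker_eq_top, sub_eq_zero] at h
    exact h

theorem trace_idem {e : End K V} (hee : e * e = e) :
    LinearMap.trace K V e = (finrank K (LinearMap.range e) : K) := by
  have h1 : LinearMap.IsProj (LinearMap.range e) e := by
    constructor
    · intro x
      exact ⟨x, rfl⟩
    · rintro _ ⟨y, rfl⟩
      rw [← Module.End.mul_apply, hee]
  exact h1.trace

/-- the irreducible case -/
theorem full_of_prime_pow (H : IrrData g G) {l k : ℕ} (hl : l.Prime) (hk : finrank K V = l ^ k)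
    {e : End K V} (he : e ∈ G) (hle : ¬ l ∣ finrank K (LinearMap.range e)) (Z : End K V) :
    Z ∈ g := by
  have hirr' : ∀ U : Submodule K V, (∀ D ∈ g, ∀ w ∈ U, D w ∈ U) → U = ⊥ ∨ U = ⊤ :=
    fun U hU => H.hirr U fun e he => hU e (H.hG e he)
  have hee := H.hGe e he
  have hnt : Nontrivial V := by
    rw [← finrank_pos_iff (R := K), hk]
    exact pow_pos hl.pos k
  have hnd := trace_nondeg g H.hlie hirr'
  have hsc := schur_irr hirr'
  have ha0 : finrank K (LinearMap.range e) ≠ 0 := by
    intro h
    rw [h] at hle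
    exact hle (dvd_zero l)
  have htr : LinearMap.trace K V e ≠ 0 := by
    rw [trace_idem hee, Nat.cast_ne_zero]
    exact ha0
  have hone := one_mem H.hlie hnd hsc (H.hG e he) htr
  obtain ⟨t, C, het⟩ := exists_cartan H.hlie hnd hsc hone (H.hG e he) hee
  have hW' : ∀ x ∈ g, ∀ w ∈ (⊤ : Submodule K V), x w ∈ (⊤ : Submodule K V) :=
    fun _ _ _ _ => Submodule.mem_top
  have hW'' : ∀ x ∈ g, ∀ w ∈ (⊥ : Submodule K V), x w ∈ (⊥ : Submodule K V) := by
    intro x _ w hw
    rw [Submodule.mem_bot] at hw ⊢
    rw [hw, map_zero]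
  obtain ⟨v, hv⟩ := core (W' := ⊤) (W'' := ⊥) C.toTor (fun x hx => hW' x (C.le hx))
    (LinearMap.trace K V e)
    (fun O hO hne hst => trans C hW' hW'' _ ∅ (fun s hs => absurd hs (Set.notMem_empty s))
      (fun U _ hU _ _ => hirr' U hU) O hO hne hst) hl
    (by rw [finrank_top, hk]) (e := e)
    ⟨het, hee, fun w hw => by
      rw [Submodule.mem_bot] at hw
      rw [hw, map_zero], rfl⟩ rfl
    (by
      rw [Submodule.map_top]
      exact hle)
  refine full_of_diag H.hlie hirr' (v.map Submodule.topEquiv) (fun i => ?_) Z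
  obtain ⟨x, hx, hxv, -⟩ := hv i
  have h1 : mu (v.map Submodule.topEquiv) i i = x := by
    refine (v.map Submodule.topEquiv).ext fun j => ?_
    rw [mu_apply, Basis.repr_self, Basis.map_apply, Basis.map_apply]
    have h2 := hxv j
    have h3 : ∀ w : (⊤ : Submodule K V), Submodule.topEquiv w = (w : V) := fun w => rfl
    rw [h3, h3, h2]
    split_ifs with h
    · rw [h, Finsupp.single_eq_same, one_smul]
    · rw [Finsupp.single_eq_of_ne (Ne.symm h), zero_smul]
  rw [h1]
  exact C.le hx

end Pool.Agent.PrimePow
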