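import Pool.Agent.PrimePow.Link

/-!
# Irreducible Lie algebras with an idempotent of rank prime to the dimension

An irreducible Lie algebra generated by idempotents which contains an idempotent whose rank is prime
to the dimension is the algebra of all operators.
-/

set_option autoImplicit false
set_option linter.unusedSectionVars false

namespace Pool.Agent.PrimePow

open Module Pool.Agent.CoprimeSig
open Pool.Agent.TypeIV.MX (IrrData)
open Pool.Agent.OddRank (trace_nondeg)

variable {K V : Type*} [Field K] [CharZero K] [AddCommGroup V] [Module K V]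
  [FiniteDimensional K V] {g t : Submodule K (End K V)} {c : K}

/-- `x` acts on the weight vectors through the function `f` -/
def Acts (u : Basis (Om t ⊤ ⊥ c) K V) (x : End K V) (f : Om t ⊤ ⊥ c → ℚ) : Prop :=
  ∀ A, x (u A) = (f A : K) • u A

/-- the cocharacter lattice -/
def Lc (u : Basis (Om t ⊤ ⊥ c) K V) : AddSubgroup (Om t ⊤ ⊥ c → ℚ) where
  carrier := {f | (∀ A, ∃ z : ℤ, f A = z) ∧ ∃ x ∈ t, Acts u x f}
  add_mem' := by
    rintro f g ⟨h1, x, hx, h2⟩ ⟨h3, y, hy, h4⟩
    refine ⟨fun A => ?_, x + y, t.add_mem hx hy, fun A => ?_⟩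
    · obtain ⟨z, hz⟩ := h1 A
      obtain ⟨w, hw⟩ := h3 A
      exact ⟨z + w, by rw [Pi.add_apply, hz, hw, Int.cast_add]⟩
    · rw [LinearMap.add_apply, h2, h4, Pi.add_apply, Rat.cast_add, add_smul]
  zero_mem' := ⟨fun A => ⟨0, by simp⟩, 0, t.zero_mem, fun A => by simp⟩
  neg_mem' := by
    rintro f ⟨h1, x, hx, h2⟩
    refine ⟨fun A => ?_, -x, t.neg_mem hx, fun A => ?_⟩
    · obtain ⟨z, hz⟩ := h1 A
      exact ⟨-z, by rw [Pi.neg_apply, hz, Int.cast_neg]⟩
    · rw [LinearMap.neg_apply, h2, Pi.neg_apply, Rat.cast_neg, neg_smul]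

theorem repr_diag {Ω : Type*} (u : Basis Ω K V) {y : End K V} {q : Ω → K}
    (h : ∀ C, y (u C) = q C • u C) (w : V) (B : Ω) : u.repr (y w) B = q B * u.repr w B := by
  classical
  have h1 : u.coord B ∘ₗ y = q B • u.coord B := by
    refine u.ext fun C => ?_
    simp only [LinearMap.comp_apply, h, map_smul, LinearMap.smul_apply, Basis.coord_apply,
      Basis.repr_self, smul_eq_mul]
    by_cases hBC : C = B
    · rw [hBC]
    · rw [Finsupp.single_eq_of_ne (Ne.symm hBC), mul_zero, mul_zero]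
  exact LinearMap.congr_fun h1 w

section

variable (u : Basis (Om t ⊤ ⊥ c) K V) (hu : ∀ A : Om t ⊤ ⊥ c, u A ∈ Wt t ⊤ ⊥ c (A : Set (End K V)))
include hu

theorem idem_apply {y : End K V} (hy : y ∈ EE t ⊥ c) (C : Om t ⊤ ⊥ c) [Decidable (y ∈ C.1)] :
    y (u C) = (if y ∈ C.1 then (1 : K) else 0) • u C := by
  split_ifs with h
  · rw [one_smul]
    exact ((hu C).2 y hy).1 h
  · rw [zero_smul]
    exact ((hu C).2 y hy).2 h

/-- an idempotent that distinguishes two weights -/
theorem exists_dist {A B : Om t ⊤ ⊥ c} (hAB : A ≠ B) :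
    ∃ y ∈ EE t ⊥ c, (y ∈ A.1 ∧ y ∉ B.1) ∨ (y ∉ A.1 ∧ y ∈ B.1) := by
  by_contra hcon
  push Not at hcon
  apply hAB
  apply Subtype.ext
  ext y
  constructor
  · intro h
    exact (hcon y (A.2.1 h)).1 h
  · intro h
    by_contra h2
    exact (hcon y (B.2.1 h)).2 h2 h

theorem mem_Wt_iff (A : Om t ⊤ ⊥ c) (w : V) :
    w ∈ Wt t ⊤ ⊥ c (A : Set (End K V)) ↔ ∃ r : K, w = r • u A := by
  classical
  constructor
  · intro hw
    refine ⟨u.repr w A, ?_⟩
    apply u.repr.injective
    ext B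
    rw [map_smul, Basis.repr_self, Finsupp.smul_apply, smul_eq_mul]
    by_cases hAB : B = A
    · rw [hAB, Finsupp.single_eq_same, mul_one]
    · rw [Finsupp.single_eq_of_ne hAB, mul_zero]
      obtain ⟨y, hy, h⟩ := exists_dist u hu (Ne.symm hAB)
      have h1 := repr_diag u (fun C => idem_apply u hu hy C) w B
      rcases h with ⟨h2, h3⟩ | ⟨h2, h3⟩
      · rw [(hw.2 y hy).1 h2, if_neg h3, zero_mul] at h1
        exact h1
      · rw [(hw.2 y hy).2 h2, if_pos h3, one_mul, map_zero] at h1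
        exact h1.symm
  · rintro ⟨r, rfl⟩
    exact (Wt t ⊤ ⊥ c (A : Set (End K V))).smul_mem r (hu A)

/-- elements of `t` act by scalars on the weight vectors -/
theorem t_apply (T : Tor t) {x : End K V} (hx : x ∈ t) (A : Om t ⊤ ⊥ c) :
    ∃ r : K, x (u A) = r • u A := by
  rw [← mem_Wt_iff u hu]
  refine ⟨Submodule.mem_top, fun y hy => ?_⟩
  have h1 : y (x (u A)) = x (y (u A)) := LinearMap.congr_fun (T.comm y hy.1 x hx) (u A)
  refine ⟨fun h => ?_, fun h => ?_⟩
  · rw [h1, ((hu A).2 y hy).1 h]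
  · rw [h1, ((hu A).2 y hy).2 h, map_zero]

/-- the idempotents of `t` -/
theorem idem_mem {y : End K V} (hy : y ∈ EE t ⊥ c) [∀ A : Om t ⊤ ⊥ c, Decidable (y ∈ A.1)] :
    (fun A : Om t ⊤ ⊥ c => if y ∈ A.1 then (1 : ℚ) else 0) ∈ Lc u := by
  refine ⟨fun A => ?_, y, hy.1, fun A => ?_⟩
  · by_cases h : y ∈ A.1
    · exact ⟨1, by simp [h]⟩
    · exact ⟨0, by simp [h]⟩
  · rw [idem_apply u hu hy]
    by_cases h : y ∈ A.1
    · simp [h]
    · simp [h]

/-- Weyl reflections -/
theorem exists_rf [Fintype (Om t ⊤ ⊥ c)] (C : Cartan g t) {α : End K V → K} {x y : End K V}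
    (P : Opp g t α x y) (hx0 : x ≠ 0) : ∃ h π, CC.Rf (Lc u) h π ∧
      ∀ A : Om t ⊤ ⊥ c, (Wt t ⊤ ⊥ c (A : Set (End K V))).map (wl x y) =
        Wt t ⊤ ⊥ c (π A : Set (End K V)) := by
  have hW't : ∀ x ∈ t, ∀ w ∈ (⊤ : Submodule K V), x w ∈ (⊤ : Submodule K V) :=
    fun _ _ _ _ => Submodule.mem_top
  have hW' : ∀ x ∈ g, ∀ w ∈ (⊤ : Submodule K V), x w ∈ (⊤ : Submodule K V) :=
    fun _ _ _ _ => Submodule.mem_top
  have hW'' : ∀ x ∈ g, ∀ w ∈ (⊥ : Submodule K V), x w ∈ (⊥ : Submodule K V) := by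
    intro x _ w hw
    rw [Submodule.mem_bot] at hw ⊢
    rw [hw, map_zero]
  obtain ⟨φ, π, -, hπ, -⟩ := sym_act C.toTor hW't c (isSym_wl C hW' hW'' P)
  -- the values of the coroot
  have hval : ∀ A, ∃ q : ℚ, (q = -1 ∨ q = 0 ∨ q = 1) ∧ (x * y - y * x) (u A) = (q : K) • u A := by
    intro A
    obtain ⟨r, hr⟩ := t_apply u hu C.toTor P.mem A
    have h1 : (x * y - y * x) * (x * y - y * x) * (x * y - y * x) = x * y - y * x := by
      have e1 : x * y * (x * y) = x * y := by rw [← mul_assoc, P.xyx]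
      have e2 : y * x * (y * x) = y * x := by rw [← mul_assoc, P.yxy]
      have e3 : x * y * (y * x) = 0 := by rw [mul_assoc, ← mul_assoc y, P.yy, zero_mul, mul_zero]
      have e4 : y * x * (x * y) = 0 := by rw [mul_assoc, ← mul_assoc x, P.xx, zero_mul, mul_zero]
      have e5 : (x * y - y * x) * (x * y - y * x) = x * y + y * x := by
        rw [sub_mul, mul_sub, mul_sub, e1, e2, e3, e4]
        abel
      rw [e5, add_mul, mul_sub, mul_sub, e1, e2, e3, e4]
      abel
    have h2 := LinearMap.congr_fun h1 (u A)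
    simp only [Module.End.mul_apply] at h2
    have h3 : (x * y - y * x) ((x * y - y * x) ((x * y - y * x) (u A))) =
        (x * y - y * x) (u A) := by
      have := LinearMap.congr_fun h1 (u A)
      rwa [Module.End.mul_apply, Module.End.mul_apply] at this
    rw [hr, map_smul, hr, map_smul, map_smul, hr, smul_smul, smul_smul] at h3
    have h4 : r * r * r = r := smul_left_injective K (u.ne_zero A) h3
    have h5 : r * ((r - 1) * (r + 1)) = 0 := by linear_combination h4
    rcases mul_eq_zero.1 h5 with h6 | h6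
    · exact ⟨0, Or.inr (Or.inl rfl), by rw [hr, h6, Rat.cast_zero]⟩
    · rcases mul_eq_zero.1 h6 with h7 | h7
      · exact ⟨1, Or.inr (Or.inr rfl), by rw [hr, sub_eq_zero.1 h7, Rat.cast_one]⟩
      · exact ⟨-1, Or.inl rfl, by
          rw [hr, eq_neg_of_add_eq_zero_left h7, Rat.cast_neg, Rat.cast_one]⟩
  choose h hh1 hh2 using hval
  -- the root is integral
  have hint : ∀ f : Om t ⊤ ⊥ c → ℚ, (∀ A, ∃ z : ℤ, f A = z) → ∀ τ ∈ t, Acts u τ f →
      ∃ a : ℤ, α τ = a := by
    intro f hf τ hτ hτf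
    obtain ⟨A, hA⟩ : ∃ A, x (u A) ≠ 0 := by
      by_contra hcon
      push Not at hcon
      exact hx0 (u.ext fun A => by rw [hcon, LinearMap.zero_apply])
    obtain ⟨B, hB⟩ : ∃ B, u.repr (x (u A)) B ≠ 0 := by
      by_contra hcon
      push Not at hcon
      apply hA
      apply u.repr.injective
      ext B
      rw [hcon, map_zero, Finsupp.zero_apply]
    have h1 := congrArg (fun z : V => u.repr z B) (LinearMap.congr_fun (P.rx.root τ hτ) (u A))
    simp only [LinearMap.sub_apply, Module.End.mul_apply, LinearMap.smul_apply, map_sub,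
      map_smul, Finsupp.sub_apply, Finsupp.smul_apply, smul_eq_mul] at h1
    rw [repr_diag u hτf, hτf A, map_smul, map_smul, Finsupp.smul_apply, smul_eq_mul,
      ← sub_mul] at h1
    have h2 := mul_right_cancel₀ hB h1
    obtain ⟨z₁, hz₁⟩ := hf A
    obtain ⟨z₂, hz₂⟩ := hf B
    refine ⟨z₂ - z₁, ?_⟩
    rw [← h2, hz₁, hz₂]
    push_cast
    ring
  -- the reflection formula
  have hrefl : ∀ f : Om t ⊤ ⊥ c → ℚ, ∀ τ ∈ t, Acts u τ f → ∀ A,
      (f (π A) : K) = f A - α τ * h A := by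
    intro f τ hτ hτf A
    obtain ⟨k1, k2, -, k3⟩ := wl_mul_inv P
    have h1 : wl x y (u A) ∈ Wt t ⊤ ⊥ c (π A : Set (End K V)) := by
      rw [← hπ]
      exact Submodule.mem_map_of_mem (hu A)
    obtain ⟨r, hr⟩ := (mem_Wt_iff u hu _ _).1 h1
    have hinv : wlInv x y (wl x y (u A)) = u A := by
      rw [← Module.End.mul_apply, k2, Module.End.one_apply]
    have h2 := LinearMap.congr_fun (k3 τ hτ) (u A)
    rw [Module.End.mul_apply, Module.End.mul_apply, hr, map_smul, hτf, LinearMap.sub_apply,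
      LinearMap.smul_apply, hτf, hh2, smul_smul, mul_comm r, ← smul_smul, ← hr, map_smul, hinv,
      smul_smul, ← sub_smul] at h2
    exact smul_left_injective K (u.ne_zero A) h2
  have hne : h ≠ 0 := by
    intro h0
    have h1 : x * y - y * x = 0 := by
      refine u.ext fun A => ?_
      rw [hh2, h0, Pi.zero_apply, Rat.cast_zero, zero_smul, LinearMap.zero_apply]
    apply hx0
    rw [← P.xyx, sub_eq_zero.1 h1, mul_assoc, P.xx, mul_zero]
  have hα2 : α (x * y - y * x) = 2 := by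
    have h1 := P.rx.root _ P.mem
    have h2 : (x * y - y * x) * x - x * (x * y - y * x) = (2 : K) • x := by
      rw [sub_mul, mul_sub, P.xyx, mul_assoc y x x, P.xx, mul_zero, ← mul_assoc, P.xx, zero_mul,
        ← mul_assoc, P.xyx, two_smul]
      abel
    rw [h2] at h1
    exact (smul_left_injective K hx0 h1).symm
  refine ⟨h, π, ⟨⟨fun A => ?_, _, P.mem, hh2⟩, hne, hh1, ?_, ?_⟩, hπ⟩
  · rcases hh1 A with h1 | h1 | h1
    · exact ⟨-1, by rw [h1]; norm_num⟩
    · exact ⟨0, by rw [h1]; norm_num⟩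
    · exact ⟨1, by rw [h1]; norm_num⟩
  · rintro f ⟨hf, τ, hτ, hτf⟩
    obtain ⟨a, ha⟩ := hint f hf τ hτ hτf
    refine ⟨a, fun A => ?_⟩
    have h1 := hrefl f τ hτ hτf A
    rw [ha] at h1
    exact_mod_cast h1
  · intro A
    have h1 := hrefl h _ P.mem hh2 A
    rw [hα2] at h1
    have h2 : (h (π A) : K) = ((-h A : ℚ) : K) := by
      rw [h1]
      push_cast
      ring
    exact_mod_cast h2

/-- the lattice -/
theorem lat [Fintype (Om t ⊤ ⊥ c)] (C : Cartan g t)
    (hirr : ∀ U : Submodule K V, (∀ x ∈ g, ∀ u ∈ U, x u ∈ U) → U = ⊥ ∨ U = ⊤)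
    (hone : (1 : End K V) ∈ t) : CC.Lat (Lc u) := by
  classical
  refine ⟨fun f hf => hf.1, ⟨fun A => ⟨1, by norm_num⟩, 1, hone, fun A => by simp⟩, ?_, ?_⟩
  · intro A B hAB
    by_contra hne
    obtain ⟨y, hy, h⟩ := exists_dist u hu hne
    have h1 := hAB _ (idem_mem u hu hy)
    rcases h with ⟨h2, h3⟩ | ⟨h2, h3⟩
    · simp [h2, h3] at h1
    · simp [h2, h3] at h1
  · intro S hS hst
    have h1 := trans_wl C hirr c (Subtype.val '' S) (by
      rintro _ ⟨A, -, rfl⟩
      exact A.2) (hS.image _) (by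
      rintro x y α P hx0 _ ⟨A, hA, rfl⟩ B hB hAB
      obtain ⟨h, π, hR, hπ⟩ := exists_rf u hu C P hx0
      refine ⟨π A, hst h π hR A hA, ?_⟩
      exact core_wt_unique (π A).2 hB ((hπ A).symm.trans hAB))
    refine Set.eq_univ_of_forall fun A => ?_
    have h2 : (A : Set (End K V)) ∈ Subtype.val '' S := by
      rw [h1]
      exact A.2
    obtain ⟨B, hB, hBA⟩ := h2
    rwa [← Subtype.ext hBA]

end

/-- the coprime case -/
theorem full_of_coprime [IsAlgClosed K] {G : Set (End K V)} (H : IrrData g G) {e : End K V}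
    (he : e ∈ G) (he0 : finrank K (LinearMap.range e) ≠ 0)
    (hcop : Nat.Coprime (finrank K (LinearMap.range e)) (finrank K V)) (Z : End K V) : Z ∈ g := by
  classical
  have hirr : ∀ U : Submodule K V, (∀ D ∈ g, ∀ w ∈ U, D w ∈ U) → U = ⊥ ∨ U = ⊤ :=
    fun U hU => H.hirr U fun e he => hU e (H.hG e he)
  have hee := H.hGe e he
  have hnt : Nontrivial V := by
    rw [← finrank_pos_iff (R := K)]
    have h3 := Submodule.finrank_le (LinearMap.range e)
    omega
  have hnd := trace_nondeg g H.hlie hirr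
  have hsc := schur_irr hirr
  have htr : LinearMap.trace K V e ≠ 0 := by
    rw [trace_idem hee, Nat.cast_ne_zero]
    exact he0
  have hone := one_mem H.hlie hnd hsc (H.hG e he) htr
  obtain ⟨t, C, het⟩ := exists_cartan H.hlie hnd hsc hone (H.hG e he) hee
  have hone' : (1 : End K V) ∈ t := C.cent 1 hone fun y _ => by rw [mul_one, one_mul]
  obtain ⟨c, hc⟩ : ∃ c, c = LinearMap.trace K V e := ⟨_, rfl⟩
  obtain ⟨hfin, u, hu⟩ := exists_frame C hirr het hee hc.symm hcop
  have hfin' : Finite (Om t ⊤ ⊥ c) := hfin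
  have hft : Fintype (Om t ⊤ ⊥ c) := Fintype.ofFinite _
  have heE : e ∈ EE t ⊥ c := ⟨het, hee, fun w hw => by
      rw [Submodule.mem_bot] at hw
      rw [hw, map_zero], hc.symm⟩
  have hsum : ∑ A : Om t ⊤ ⊥ c, (if e ∈ A.1 then (1 : ℚ) else 0) =
      (finrank K (LinearMap.range e) : ℕ) := by
    have h1 : LinearMap.trace K V e = ∑ A : Om t ⊤ ⊥ c, (if e ∈ A.1 then (1 : K) else 0) := by
      rw [LinearMap.trace_eq_matrix_trace K u, Matrix.trace]
      refine Finset.sum_congr rfl fun A _ => ?_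
      rw [Matrix.diag_apply, LinearMap.toMatrix_apply, idem_apply u hu heE, map_smul,
        Basis.repr_self, Finsupp.smul_apply, Finsupp.single_eq_same, smul_eq_mul, mul_one]
    rw [trace_idem hee] at h1
    have h2 : ((∑ A : Om t ⊤ ⊥ c, (if e ∈ A.1 then (1 : ℕ) else 0) : ℕ) : K) =
        (finrank K (LinearMap.range e) : ℕ) := by
      rw [h1]
      push_cast
      rfl
    have h3 := Nat.cast_injective h2
    rw [← h3]
    push_cast
    rfl
  have D : CC.Dat (Lc u) (fun A => if e ∈ A.1 then (1 : ℚ) else 0)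
      (finrank K (LinearMap.range e)) :=
    { toLat := lat u hu C hirr hone'
      he := idem_mem u hu heE
      hval := fun A => by
        by_cases h : e ∈ A.1
        · exact Or.inr (if_pos h)
        · exact Or.inl (if_neg h)
      hsum := hsum
      hcop := by rwa [finrank_eq_card_basis u] at hcop }
  have htop := CC.span_top D
  -- all diagonal operators belong to `t`
  have hdiag : ∀ f : Om t ⊤ ⊥ c → ℚ, ∃ x ∈ t, Acts u x f := by
    intro f
    have hf : f ∈ Submodule.span ℚ (Lc u : Set (Om t ⊤ ⊥ c → ℚ)) := htop ▸ Submodule.mem_top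
    induction hf using Submodule.span_induction with
    | mem f hf => exact hf.2
    | zero => exact ⟨0, t.zero_mem, fun A => by simp⟩
    | add f f' _ _ h1 h2 =>
      obtain ⟨x, hx, h1⟩ := h1
      obtain ⟨y, hy, h2⟩ := h2
      exact ⟨x + y, t.add_mem hx hy, fun A => by
        rw [LinearMap.add_apply, h1, h2, Pi.add_apply, Rat.cast_add, add_smul]⟩
    | smul q f _ h1 =>
      obtain ⟨x, hx, h1⟩ := h1
      exact ⟨(q : K) • x, t.smul_mem _ hx, fun A => by
        rw [LinearMap.smul_apply, h1, smul_smul, Pi.smul_apply, smul_eq_mul, Rat.cast_mul]⟩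
  obtain ⟨ε⟩ : Nonempty (Om t ⊤ ⊥ c ≃ Fin (Fintype.card (Om t ⊤ ⊥ c))) :=
    ⟨Fintype.equivFin _⟩
  refine full_of_diag H.hlie hirr (u.reindex ε) (fun i => ?_) Z
  obtain ⟨x, hx, hxf⟩ := hdiag fun A => if A = ε.symm i then 1 else 0
  have h1 : mu (u.reindex ε) i i = x := by
    refine (u.reindex ε).ext fun j => ?_
    rw [mu_apply, Basis.repr_self, Basis.reindex_apply, Basis.reindex_apply, hxf]
    by_cases h : j = i
    · simp [h]
    · simp [h, Finsupp.single_eq_of_ne (Ne.symm h)]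
  rw [h1]
  exact C.le hx

end Pool.Agent.PrimePow

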