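import Mathlib.Algebra.Lie.AdjointAction.JordanChevalley
import Mathlib.Algebra.Lie.Engel
import Mathlib.Algebra.Lie.Weights.Linear
import Mathlib.Algebra.Lie.TraceForm
import Pool.Agent.CoprimeSig.Root
import Pool.Agent.CoprimeSig.Simul

/-!
# Existence of self-centralising diagonalisable subalgebras
-/

set_option autoImplicit false
set_option linter.unusedSectionVars false

namespace Pool.Agent.PrimePow

open Module Pool.Agent.CoprimeSig

section

variable {K V : Type*} [Field K] [CharZero K] [IsAlgClosed K] [AddCommGroup V] [Module K V]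
  [FiniteDimensional K V] {g t : Submodule K (End K V)}

open Algebra

attribute [local instance 100] LieRing.ofAssociativeRing

/-- the projection to `g` along the orthogonal complement of the trace form -/
theorem exists_part (hnd : ∀ x ∈ g, (∀ y ∈ g, LinearMap.trace K V (x * y) = 0) → x = 0)
    (s : End K V) : ∃ s' ∈ g, ∀ y ∈ g, LinearMap.trace K V ((s - s') * y) = 0 := by
  let B : End K V →ₗ[K] Dual K g :=
    { toFun := fun x => (LinearMap.trace K V ∘ₗ LinearMap.mulLeft K x) ∘ₗ g.subtype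
      map_add' := fun x y => by
        ext z
        simp [add_mul]
      map_smul' := fun c x => by
        ext z
        simp }
  have hB : ∀ (x : End K V) (y : g), B x y = LinearMap.trace K V (x * y) := fun _ _ => rfl
  have hinj : Function.Injective (B ∘ₗ g.subtype) := by
    rw [injective_iff_map_eq_zero]
    intro x hx
    apply Subtype.ext
    refine hnd x x.2 fun y hy => ?_
    have h1 := LinearMap.congr_fun hx ⟨y, hy⟩
    exact h1
  have hsurj : Function.Surjective (B ∘ₗ g.subtype) :=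
    (LinearMap.injective_iff_surjective_of_finrank_eq_finrank
      Subspace.dual_finrank_eq.symm).1 hinj
  obtain ⟨s', hs'⟩ := hsurj (B s)
  refine ⟨s', s'.2, fun y hy => ?_⟩
  have h1 := LinearMap.congr_fun hs' ⟨y, hy⟩
  have h2 : LinearMap.trace K V ((s' : End K V) * y) = LinearMap.trace K V (s * y) := h1
  rw [sub_mul, map_sub, h2, sub_self]

/-- the second component commutes with `g` if `s` normalises `g` -/
theorem part_comm (hlie : ∀ x ∈ g, ∀ y ∈ g, x * y - y * x ∈ g)
    (hnd : ∀ x ∈ g, (∀ y ∈ g, LinearMap.trace K V (x * y) = 0) → x = 0)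
    {s s' : End K V} (hs : ∀ x ∈ g, s * x - x * s ∈ g) (hs' : s' ∈ g)
    (h : ∀ y ∈ g, LinearMap.trace K V ((s - s') * y) = 0) :
    ∀ x ∈ g, (s - s') * x = x * (s - s') := by
  intro x hx
  rw [← sub_eq_zero]
  apply hnd
  · have h1 := g.sub_mem (hs x hx) (hlie s' hs' x hx)
    convert h1 using 1
    noncomm_ring
  · intro y hy
    have h1 := h _ (hlie x hx y hy)
    obtain ⟨u, hu⟩ : ∃ u, u = s - s' := ⟨_, rfl⟩
    rw [← hu] at h1 ⊢
    rw [← h1, sub_mul, map_sub, mul_sub, map_sub, mul_assoc, mul_assoc x,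
      LinearMap.trace_mul_comm K x, mul_assoc u]

/-- the identity belongs to `g` -/
theorem one_mem (hlie : ∀ x ∈ g, ∀ y ∈ g, x * y - y * x ∈ g)
    (hnd : ∀ x ∈ g, (∀ y ∈ g, LinearMap.trace K V (x * y) = 0) → x = 0)
    (hsc : ∀ z : End K V, (∀ x ∈ g, z * x = x * z) → ∃ c : K, z = c • 1)
    {e : End K V} (he : e ∈ g) (htr : LinearMap.trace K V e ≠ 0) : (1 : End K V) ∈ g := by
  obtain ⟨s', hs', h⟩ := exists_part hnd 1
  obtain ⟨c, hc⟩ := hsc _ (part_comm hlie hnd (s := 1)
    (fun x hx => by rw [one_mul, mul_one, sub_self]; exact g.zero_mem) hs' h)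
  have h1 : s' = (1 - c) • 1 := by
    rw [sub_smul, one_smul, ← hc, sub_sub_cancel]
  by_cases hc1 : (1 : K) - c = 0
  · exfalso
    apply htr
    have h2 := h e he
    rw [h1, hc1, zero_smul, sub_zero, one_mul] at h2
    exact h2
  · have h2 := g.smul_mem (1 - c)⁻¹ hs'
    rwa [h1, smul_smul, inv_mul_cancel₀ hc1, one_smul] at h2

/-- semisimple parts of elements of `g` belong to `g` -/
theorem ss_mem (hlie : ∀ x ∈ g, ∀ y ∈ g, x * y - y * x ∈ g)
    (hnd : ∀ x ∈ g, (∀ y ∈ g, LinearMap.trace K V (x * y) = 0) → x = 0)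
    (hsc : ∀ z : End K V, (∀ x ∈ g, z * x = x * z) → ∃ c : K, z = c • 1)
    (hone : (1 : End K V) ∈ g) {n s : End K V} (hc : Commute n s) (hn : IsNilpotent n)
    (hs : s.IsSemisimple) (hz : n + s ∈ g) : s ∈ g := by
  have hst : ∀ x ∈ g, s * x - x * s ∈ g := by
    obtain ⟨p, hp⟩ := adjoin_mem_exists_aeval K _
      (LieAlgebra.ad_mem_adjoin_of_isSemisimple (K := K) hc hn hs)
    have hinv : ∀ x ∈ g, LieAlgebra.ad K (End K V) (n + s) x ∈ g := by
      intro x hx
      exact hlie _ hz x hx
    intro x hx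
    have h1 : LieAlgebra.ad K (End K V) s x ∈ g := by
      rw [← hp]
      exact p.aeval_apply_smul_mem_of_le_comap hx _ hinv
    exact h1
  obtain ⟨s', hs', h⟩ := exists_part hnd s
  obtain ⟨c, hc'⟩ := hsc _ (part_comm hlie hnd hst hs' h)
  have h1 : s = s' + c • 1 := by rw [← hc', add_sub_cancel]
  rw [h1]
  exact g.add_mem hs' (g.smul_mem c hone)

/-- nilpotent elements of the centraliser are orthogonal to the centraliser -/
theorem trace_cent (hlie : ∀ x ∈ g, ∀ y ∈ g, x * y - y * x ∈ g)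
    (hdec : ∀ x ∈ g, (∀ y ∈ t, x * y = y * x) → ∃ n s : End K V, IsNilpotent n ∧ s ∈ t ∧ x = n + s)
    {n z : End K V} (hn : n ∈ g) (hnt : ∀ y ∈ t, n * y = y * n) (hnn : IsNilpotent n)
    (hz : z ∈ g) (hzt : ∀ y ∈ t, z * y = y * z) : LinearMap.trace K V (n * z) = 0 := by
  let L : LieSubalgebra K (End K V) :=
    { carrier := {x | x ∈ g ∧ ∀ y ∈ t, x * y = y * x}
      add_mem' := by
        rintro a b ⟨ha, ha'⟩ ⟨hb, hb'⟩
        exact ⟨g.add_mem ha hb, fun y hy => by rw [add_mul, mul_add, ha' y hy, hb' y hy]⟩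
      zero_mem' := ⟨g.zero_mem, fun y _ => by rw [zero_mul, mul_zero]⟩
      smul_mem' := by
        rintro c a ⟨ha, ha'⟩
        exact ⟨g.smul_mem c ha, fun y hy => by rw [smul_mul_assoc, mul_smul_comm, ha' y hy]⟩
      lie_mem' := by
        rintro a b ⟨ha, ha'⟩ ⟨hb, hb'⟩
        refine ⟨hlie a ha b hb, fun y hy => ?_⟩
        change (a * b - b * a) * y = y * (a * b - b * a)
        rw [sub_mul, mul_sub, mul_assoc, hb' y hy, ← mul_assoc, ha' y hy, mul_assoc, mul_assoc b,
          ha' y hy, ← mul_assoc b, hb' y hy]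
        simp only [mul_assoc] }
  have hnil : LieRing.IsNilpotent L := by
    rw [LieAlgebra.isNilpotent_iff_forall (R := K)]
    rintro ⟨x, hx, hx'⟩
    obtain ⟨m, s, hm, hs, hxe⟩ := hdec x hx hx'
    have h1 : IsNilpotent (LieAlgebra.ad K (End K V) m) := LieAlgebra.ad_nilpotent_of_nilpotent hm
    obtain ⟨k, hk⟩ := h1
    refine ⟨k, ?_⟩
    have h2 : ∀ (j : ℕ) (y : L), ((((LieAlgebra.ad K L ⟨x, hx, hx'⟩) ^ j) y : L) : End K V) =
        ((LieAlgebra.ad K (End K V) m) ^ j) (y : End K V) := by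
      intro j
      induction j with
      | zero => intro y; rfl
      | succ j ih =>
        intro y
        rw [pow_succ, pow_succ, Module.End.mul_apply, Module.End.mul_apply, ih]
        congr 1
        change x * (y : End K V) - (y : End K V) * x = m * (y : End K V) - (y : End K V) * m
        have h3 : (y : End K V) * s = s * y := y.2.2 s hs
        rw [hxe, add_mul, mul_add, h3]
        abel
    ext1 y
    apply Subtype.ext
    rw [h2, hk]
    rfl
  have h1 := LieModule.traceForm_eq_sum_finrank_nsmul_mul K L V ⟨n, hn, hnt⟩ ⟨z, hz, hzt⟩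
  have h2 : LieModule.traceForm K L V ⟨n, hn, hnt⟩ ⟨z, hz, hzt⟩ = LinearMap.trace K V (n * z) :=
    rfl
  rw [← h2, h1]
  refine Finset.sum_eq_zero fun χ _ => ?_
  have h4 : IsNilpotent (LieModule.toEnd K L V ⟨n, hn, hnt⟩) := hnn
  have h3 : χ (⟨n, hn, hnt⟩ : L) = 0 := LieModule.Weight.apply_eq_zero_of_isNilpotent _ h4 χ
  rw [h3, zero_mul, smul_zero]

open Classical in
/-- Root space decomposition. -/
theorem span_roots (T : Tor t) (hle : t ≤ g) (hlie : ∀ x ∈ g, ∀ y ∈ g, x * y - y * x ∈ g)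
    {x : End K V} (hx : x ∈ g) : x ∈ Submodule.span K {z | ∃ α, IsRoot g t α z} := by
  obtain ⟨I, _, v, hv⟩ := T.diag
  have hmaps : ∀ τ ∈ t, ∀ y ∈ g, rootAd τ y ∈ g := fun τ hτ y hy => hlie τ (hle hτ) y hy
  let f : t → End K g := fun τ => (rootAd (τ : End K V)).restrict (hmaps τ τ.2)
  have hcomm : Pairwise fun i j => Commute (f i) (f j) := by
    intro i j _
    have h1 := rootAd_comm (T.comm i i.2 j j.2)
    ext1 y
    apply Subtype.ext
    have h2 := LinearMap.congr_fun h1.eq (y : End K V)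
    simpa [f] using h2
  have hmax : ∀ (τ : t) (μ : K), (f τ).maxGenEigenspace μ = (f τ).eigenspace μ := by
    intro τ μ
    refine root_ker_of_sq _ _ (fun z hz => ?_)
    choose c hc using hv τ τ.2
    have h1 : ∀ z : g, ((((f τ) - algebraMap K (End K g) μ) z : g) : End K V) =
        (rootAd (τ : End K V) - algebraMap K (End K (End K V)) μ) (z : End K V) := by
      intro z
      simp [f, Algebra.algebraMap_eq_smul_one]
    apply Subtype.ext
    rw [h1]
    apply rootAd_sq v hc
    rw [← h1, ← h1, hz]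
    rfl
  have htop : ∀ τ : t, ⨆ μ, (f τ).maxGenEigenspace μ = ⊤ := by
    intro τ
    choose c hc using hv τ τ.2
    exact Module.End.genEigenspace_restrict_eq_top _ (rootAd_top v hc)
  have key := Module.End.iSup_iInf_maxGenEigenspace_eq_top_of_iSup_maxGenEigenspace_eq_top_of_commute
    f hcomm htop
  have hmem : (⟨x, hx⟩ : g) ∈ (⊤ : Submodule K g) := Submodule.mem_top
  rw [← key] at hmem
  have hle' : (⨆ χ : t → K, ⨅ i, (f i).maxGenEigenspace (χ i)) ≤
      (Submodule.span K {z | ∃ α, IsRoot g t α z}).comap g.subtype := by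
    refine iSup_le (fun χ y hy => ?_)
    apply Submodule.subset_span
    refine ⟨fun τ => if h : τ ∈ t then χ ⟨τ, h⟩ else 0, y.2, fun τ hτ => ?_⟩
    rw [Submodule.mem_iInf] at hy
    have h1 := hy ⟨τ, hτ⟩
    rw [hmax, Module.End.mem_eigenspace_iff] at h1
    have h2 := congrArg (Subtype.val) h1
    simpa [f, hτ, rootAd_apply] using h2
  exact hle' hmem

/-- a commuting space of semisimple operators is simultaneously diagonalisable -/
theorem tor_of_ss (hcomm : ∀ x ∈ t, ∀ y ∈ t, x * y = y * x)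
    (hss : ∀ x ∈ t, x.IsSemisimple) : Tor t := by
  obtain ⟨v, hv⟩ := exists_eigenbasis (t : Set (End K V)) hcomm
    (fun x hx => (hss x hx).iSup_eigenspace_eq_top)
  exact ⟨hcomm, Fin (finrank K V), inferInstance, v, hv⟩

/-- existence of a self-centralising diagonalisable subalgebra that contains an idempotent -/
theorem exists_cartan (hlie : ∀ x ∈ g, ∀ y ∈ g, x * y - y * x ∈ g)
    (hnd : ∀ x ∈ g, (∀ y ∈ g, LinearMap.trace K V (x * y) = 0) → x = 0)
    (hsc : ∀ z : End K V, (∀ x ∈ g, z * x = x * z) → ∃ c : K, z = c • 1)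
    (hone : (1 : End K V) ∈ g) {e : End K V} (he : e ∈ g) (hee : e * e = e) :
    ∃ t : Submodule K (End K V), Cartan g t ∧ e ∈ t := by
  have hess : e.IsSemisimple := by
    refine Module.End.isSemisimple_of_squarefree_aeval_eq_zero
      (p := (Polynomial.X - Polynomial.C 0) * (Polynomial.X - Polynomial.C 1)) ?_ ?_
    · refine (Polynomial.Separable.mul Polynomial.separable_X_sub_C
        Polynomial.separable_X_sub_C ?_).squarefree
      exact Polynomial.isCoprime_X_sub_C_of_isUnit_sub (by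
        rw [zero_sub]
        exact isUnit_one.neg)
    · rw [map_mul, map_sub, map_sub, Polynomial.aeval_X, Polynomial.aeval_C, Polynomial.aeval_C,
        map_zero, map_one, sub_zero, mul_sub, mul_one, hee, sub_self]
  obtain ⟨t, ⟨htg, het, hcomm, hss⟩, hmax⟩ := (wellFounded_gt (α := Submodule K (End K V))).has_min
    {t | t ≤ g ∧ e ∈ t ∧ (∀ x ∈ t, ∀ y ∈ t, x * y = y * x) ∧ ∀ x ∈ t, x.IsSemisimple}
    ⟨K ∙ e, (Submodule.span_singleton_le_iff_mem _ _).2 he, Submodule.mem_span_singleton_self e,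
      by
        intro x hx y hy
        obtain ⟨a, rfl⟩ := Submodule.mem_span_singleton.1 hx
        obtain ⟨b, rfl⟩ := Submodule.mem_span_singleton.1 hy
        rw [smul_mul_smul_comm, smul_mul_smul_comm, mul_comm a b],
      by
        intro x hx
        obtain ⟨a, rfl⟩ := Submodule.mem_span_singleton.1 hx
        exact Module.End.IsSemisimple_smul a hess⟩
  have T := tor_of_ss hcomm hss
  have hdec : ∀ x ∈ g, (∀ y ∈ t, x * y = y * x) →
      ∃ n s : End K V, IsNilpotent n ∧ s ∈ t ∧ x = n + s := by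
    intro x hx hxt
    obtain ⟨n, hn, s, hs, hnn, hsss, hxe⟩ := x.exists_isNilpotent_isSemisimple
    refine ⟨n, s, hnn, ?_, hxe⟩
    have hc : Commute n s :=
      commute_of_mem_adjoin_singleton_of_commute hs (commute_of_mem_adjoin_self hn).symm
    have hsg : s ∈ g := ss_mem hlie hnd hsc hone hc hnn hsss (hxe ▸ hx)
    have hst : ∀ y ∈ t, s * y = y * s := by
      intro y hy
      exact (commute_of_mem_adjoin_singleton_of_commute hs (show Commute y x from
        (hxt y hy).symm)).symm
    by_contra hsnt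
    refine hmax (t ⊔ K ∙ s) ⟨sup_le htg ((Submodule.span_singleton_le_iff_mem _ _).2 hsg),
      Submodule.mem_sup_left het, ?_, ?_⟩ ?_
    · intro a ha b hb
      obtain ⟨a₁, ha₁, a₂, ha₂, rfl⟩ := Submodule.mem_sup.1 ha
      obtain ⟨b₁, hb₁, b₂, hb₂, rfl⟩ := Submodule.mem_sup.1 hb
      obtain ⟨c, rfl⟩ := Submodule.mem_span_singleton.1 ha₂
      obtain ⟨d, rfl⟩ := Submodule.mem_span_singleton.1 hb₂
      simp only [mul_add, add_mul, smul_mul_assoc, mul_smul_comm, hcomm a₁ ha₁ b₁ hb₁,
        hst a₁ ha₁, hst b₁ hb₁, smul_add, smul_smul, mul_comm d c]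
      abel
    · intro a ha
      obtain ⟨a₁, ha₁, a₂, ha₂, rfl⟩ := Submodule.mem_sup.1 ha
      obtain ⟨c, rfl⟩ := Submodule.mem_span_singleton.1 ha₂
      refine Module.End.IsSemisimple.add_of_commute ?_ (hss a₁ ha₁) (Module.End.IsSemisimple_smul c hsss)
      exact ((show Commute s a₁ from hst a₁ ha₁).smul_left c).symm
    · refine lt_of_le_of_ne le_sup_left fun h => hsnt ?_
      rw [h]
      exact Submodule.mem_sup_right (Submodule.mem_span_singleton_self s)
  refine ⟨t, ⟨T, hlie, hnd, htg, ?_⟩, het⟩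
  intro x hx hxt
  obtain ⟨n, s, hnn, hs, hxe⟩ := hdec x hx hxt
  have hn : n ∈ g := by
    have h1 : n = x - s := by rw [hxe, add_sub_cancel_right]
    rw [h1]
    exact g.sub_mem hx (htg hs)
  have hnt : ∀ y ∈ t, n * y = y * n := by
    intro y hy
    have h1 : n = x - s := by rw [hxe, add_sub_cancel_right]
    rw [h1, sub_mul, mul_sub, hxt y hy, hcomm s hs y hy]
  have hn0 : n = 0 := by
    apply hnd n hn
    intro y hy
    have h1 := span_roots T htg hlie hy
    clear hy
    induction h1 using Submodule.span_induction with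
    | mem z hz =>
      obtain ⟨α, hz, hα⟩ := hz
      by_cases h0 : ∀ τ ∈ t, α τ = 0
      · refine trace_cent hlie hdec hn hnt hnn hz fun y hy => ?_
        have h2 := hα y hy
        rw [h0 y hy, zero_smul, sub_eq_zero] at h2
        exact h2.symm
      · push Not at h0
        obtain ⟨τ, hτ, hτ0⟩ := h0
        have h2 : z = (α τ)⁻¹ • (τ * z - z * τ) := by
          rw [hα τ hτ, smul_smul, inv_mul_cancel₀ hτ0, one_smul]
        have h3 : LinearMap.trace K V (n * (τ * z - z * τ)) = 0 := by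
          rw [mul_sub, map_sub, ← mul_assoc, hnt τ hτ, mul_assoc, LinearMap.trace_mul_comm,
            mul_assoc, sub_self]
        rw [h2, mul_smul_comm, map_smul, h3, smul_zero]
    | zero => rw [mul_zero, map_zero]
    | add a b _ _ ha hb => rw [mul_add, map_add, ha, hb, add_zero]
    | smul c a _ ha => rw [mul_smul_comm, map_smul, ha, smul_zero]
  rw [hxe, hn0, zero_add]
  exact hs

end

end Pool.Agent.PrimePow
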