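import Pool.Agent.PrimePow.Comb2

/-!
# Reflections of lattices of functions: positive roots and the highest root
-/

set_option autoImplicit false
set_option linter.unusedSectionVars false

namespace Pool.Agent.PrimePow.CC

variable {Ω : Type*} [Fintype Ω] {L : AddSubgroup (Ω → ℚ)} {h h' f v θ : Ω → ℚ}
  {π π' : Equiv.Perm Ω} {e : Ω → ℚ} {a : ℕ}

/-- `h` is a root vector -/
def Rt (L : AddSubgroup (Ω → ℚ)) (h : Ω → ℚ) : Prop := ∃ π, Rf L h π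

/-- the root of a root vector -/
noncomputable def rt (h : Ω → ℚ) : Ω → ℚ := (2 / (h ⬝ᵥ h)) • h

/-- positive root vectors -/
def Pos (L : AddSubgroup (Ω → ℚ)) (v h : Ω → ℚ) : Prop := Rt L h ∧ 0 < h ⬝ᵥ v

/-- simple root vectors -/
def Simp (L : AddSubgroup (Ω → ℚ)) (v h : Ω → ℚ) : Prop :=
  Pos L v h ∧ ∀ h₁ h₂, Pos L v h₁ → Pos L v h₂ → rt h ≠ rt h₁ + rt h₂

/-- the functional `v` is generic -/
def Gen (v : Ω → ℚ) : Prop := ∀ h : Ω → ℚ, h ≠ 0 →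
    (∀ ω, h ω = -1 ∨ h ω = 0 ∨ h ω = 1) → h ⬝ᵥ v ≠ 0

theorem exists_generic (Ω : Type*) [Fintype Ω] : ∃ v : Ω → ℚ, Gen v := by
  classical
  have hfin : {h : Ω → ℚ | h ≠ 0 ∧ ∀ ω, h ω = -1 ∨ h ω = 0 ∨ h ω = 1}.Finite := by
    refine (Set.Finite.pi' (fun _ : Ω => ({-1, 0, 1} : Set ℚ).toFinite)).subset ?_
    rintro h ⟨-, hh⟩ ω
    rcases hh ω with h1 | h1 | h1 <;> rw [h1] <;> simp
  have := hfin.to_subtype
  obtain ⟨v, hv⟩ := Module.Dual.exists_forall_ne_zero_of_forall_exists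
    (fun i : {h : Ω → ℚ | h ≠ 0 ∧ ∀ ω, h ω = -1 ∨ h ω = 0 ∨ h ω = 1} =>
      (dotProductBilin ℚ ℚ (i : Ω → ℚ) : Module.Dual ℚ (Ω → ℚ))) (by
      rintro ⟨h, hh, -⟩
      exact ⟨h, (dot_pos hh).ne'⟩)
  exact ⟨v, fun h hh hval => hv ⟨h, hh, hval⟩⟩

theorem rt_dot (h u : Ω → ℚ) : rt h ⬝ᵥ u = 2 / (h ⬝ᵥ h) * (h ⬝ᵥ u) := by
  rw [rt, smul_dotProduct, smul_eq_mul]

theorem rt_neg (h : Ω → ℚ) : rt (-h) = -rt h := by
  rw [rt, rt, neg_dotProduct_neg, smul_neg]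

namespace Rt

theorem fin (L : AddSubgroup (Ω → ℚ)) : {h | Rt L h}.Finite := by
  refine (Set.Finite.pi' (fun _ : Ω => ({-1, 0, 1} : Set ℚ).toFinite)).subset ?_
  rintro h ⟨π, hh⟩ ω
  rcases hh.val ω with h1 | h1 | h1 <;> rw [h1] <;> simp

theorem neg (H : Rt L h) : Rt L (-h) := by
  obtain ⟨π, H⟩ := H
  exact ⟨π, H.neg_vec⟩

theorem sq_pos (H : Rt L h) : 0 < h ⬝ᵥ h := by
  obtain ⟨π, H⟩ := H
  exact H.dot_self_pos

theorem pos_or (hv : Gen v) (H : Rt L h) : Pos L v h ∨ Pos L v (-h) := by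
  have h1 : h ⬝ᵥ v ≠ 0 := by
    obtain ⟨π, H⟩ := H
    exact hv h H.ne H.val
  rcases lt_or_gt_of_ne h1 with h2 | h2
  · refine Or.inr ⟨H.neg, ?_⟩
    rw [neg_dotProduct]
    linarith
  · exact Or.inl ⟨H, h2⟩

/-- reflections -/
theorem refl (hL : Lat L) (H : Rt L h) (H' : Rt L h') :
    ∃ c : ℤ, Rt L (h' - (c : ℚ) • h) ∧ c * (h ⬝ᵥ h) = 2 * (h ⬝ᵥ h') ∧
      (h' - (c : ℚ) • h) ⬝ᵥ (h' - (c : ℚ) • h) = h' ⬝ᵥ h' := by
  obtain ⟨π, H⟩ := H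
  obtain ⟨π', H'⟩ := H'
  obtain ⟨c, hc, hc1, hc2⟩ := conj_eq hL H H'
  refine ⟨c, ⟨_, hc⟩, hc1, ?_⟩
  have h1 : (fun ω => h' (π ω)) = h' - (c : ℚ) • h := by
    funext ω
    rw [hc2, Pi.sub_apply, Pi.smul_apply, smul_eq_mul]
  rw [← h1]
  exact dot_perm π h' h'

end Rt

theorem rt_pos (H : Pos L v h) : 0 < rt h ⬝ᵥ v := by
  rw [rt_dot]
  exact mul_pos (div_pos two_pos H.1.sq_pos) H.2

/-- a root of maximal height pairs well with the positive roots -/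
theorem dom_of_max (hL : Lat L) (H : Pos L v h) (Hθ : Rt L θ)
    (hmax : ∀ c : ℤ, Rt L (θ - (c : ℚ) • h) → rt (θ - (c : ℚ) • h) ⬝ᵥ v ≤ rt θ ⬝ᵥ v) :
    0 ≤ h ⬝ᵥ θ := by
  by_contra hcon
  push Not at hcon
  obtain ⟨c, hc, hc1, hc2⟩ := Rt.refl hL H.1 Hθ
  have h1 := hmax c hc
  have hh := H.1.sq_pos
  have hθ := Hθ.sq_pos
  rw [rt_dot, rt_dot, hc2, sub_dotProduct, smul_dotProduct, smul_eq_mul, mul_sub,
    sub_le_self_iff] at h1
  have h2 : (c : ℚ) < 0 := by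
    by_contra h3
    push Not at h3
    have := mul_nonneg h3 hh.le
    linarith
  have h3 : 2 / (θ ⬝ᵥ θ) * (c * (h ⬝ᵥ v)) < 0 :=
    mul_neg_of_pos_of_neg (div_pos two_pos hθ) (mul_neg_of_neg_of_pos h2 H.2)
  linarith

/-- the data -/
structure Dat (L : AddSubgroup (Ω → ℚ)) (e : Ω → ℚ) (a : ℕ) : Prop extends Lat L where
  he : e ∈ L
  hval : ∀ ω, e ω = 0 ∨ e ω = 1
  hsum : ∑ ω, e ω = a
  hcop : Nat.Coprime a (Fintype.card Ω)

/-- two roots have a common neighbour -/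
theorem link (D : Dat L e a) (Hθ : Rt L θ) (H : Rt L h) :
    ∃ k, Rt L k ∧ k ⬝ᵥ θ ≠ 0 ∧ k ⬝ᵥ h ≠ 0 := by
  by_contra hcon
  apply irr2 D.toLat D.he D.hval D.hsum D.hcop
    (fun u => ∃ k, Rt L k ∧ k ⬝ᵥ θ ≠ 0 ∧ k ⬝ᵥ u ≠ 0)
  · rintro u π hu ⟨k, hk, hkθ, hku⟩ w ρ hw hnw
    by_contra hwu
    apply hnw
    by_cases hkw : k ⬝ᵥ w = 0
    · by_cases huθ : u ⬝ᵥ θ = 0
      · obtain ⟨c, hc, hc1, hc2⟩ := Rt.refl D.toLat ⟨π, hu⟩ hk
        refine ⟨_, hc, ?_, ?_⟩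
        · rw [sub_dotProduct, smul_dotProduct, huθ, smul_zero, sub_zero]
          exact hkθ
        · rw [sub_dotProduct, smul_dotProduct, hkw, zero_sub, neg_ne_zero, smul_eq_mul]
          refine mul_ne_zero ?_ ?_
          · intro h0
            rw [h0, zero_mul] at hc1
            apply hku
            rw [dotProduct_comm]
            linarith
          · rw [dotProduct_comm]
            exact hwu
      · refine ⟨u, ⟨π, hu⟩, huθ, ?_⟩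
        rw [dotProduct_comm]
        exact hwu
    · exact ⟨k, hk, hkθ, hkw⟩
  · obtain ⟨π, hπ⟩ := Hθ
    exact ⟨θ, π, hπ, θ, ⟨π, hπ⟩, hπ.dot_self_pos.ne', hπ.dot_self_pos.ne'⟩
  · obtain ⟨π, hπ⟩ := H
    exact ⟨h, π, hπ, hcon⟩

section

variable (D : Dat L e a) (hv : Gen v) (Hθ : Rt L θ)
  (hmax : ∀ h, Rt L h → rt h ⬝ᵥ v ≤ rt θ ⬝ᵥ v)
  (hf : ∀ h, Pos L v h → 0 ≤ h ⬝ᵥ f) (hθf : θ ⬝ᵥ f = 0)

include D hv Hθ hmax

theorem top_pos : Pos L v θ := by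
  rcases Hθ.pos_or hv with h1 | h1
  · exact h1
  · have h2 := hmax _ Hθ.neg
    have h3 := rt_pos h1
    rw [rt_neg, neg_dotProduct] at h2 h3
    linarith

theorem top_dom (H : Pos L v h) : 0 ≤ h ⬝ᵥ θ :=
  dom_of_max D.toLat H Hθ fun _ hc => hmax _ hc

include hf hθf

theorem top_orth (H : Pos L v h) (h0 : 0 < h ⬝ᵥ θ) : h ⬝ᵥ f = 0 := by
  by_contra hcon
  have h1 : 0 < h ⬝ᵥ f := lt_of_le_of_ne (hf h H) (Ne.symm hcon)
  obtain ⟨c, hc, hc1, hc2⟩ := Rt.refl D.toLat Hθ H.1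
  obtain ⟨b, hb, hb1, hb2⟩ := Rt.refl D.toLat H.1 Hθ
  have hh := H.1.sq_pos
  have hθ := Hθ.sq_pos
  -- the reflected root is positive
  have h2 : Pos L v (h - (c : ℚ) • θ) := by
    rcases hc.pos_or hv with h3 | h3
    · exact h3
    · have h4 := hf _ h3
      rw [neg_dotProduct, sub_dotProduct, smul_dotProduct, hθf, smul_zero, sub_zero] at h4
      linarith
  have h3 := rt_pos h2
  rw [rt_dot, hc2, sub_dotProduct, smul_dotProduct, smul_eq_mul] at h3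
  have h4 := hmax h H.1
  have h5 := rt_pos (top_pos D hv Hθ hmax)
  -- `b ≥ 1`
  have h6 : (0 : ℚ) < b := by
    by_contra h7
    push Not at h7
    have := mul_nonpos_of_nonpos_of_nonneg h7 hh.le
    linarith
  have h7 : (1 : ℚ) ≤ b := by
    have h8 : 0 < b := by exact_mod_cast h6
    exact_mod_cast h8
  have h8 : 2 / (h ⬝ᵥ h) * (h ⬝ᵥ v - c * (θ ⬝ᵥ v)) = rt h ⬝ᵥ v - b * (rt θ ⬝ᵥ v) := by
    rw [rt_dot, rt_dot]
    have h9 : (c : ℚ) = 2 * (θ ⬝ᵥ h) / (θ ⬝ᵥ θ) := by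
      field_simp
      linarith
    have h10 : (b : ℚ) = 2 * (h ⬝ᵥ θ) / (h ⬝ᵥ h) := by
      field_simp
      linarith
    rw [h9, h10, dotProduct_comm θ h]
    field_simp
  rw [h8] at h3
  nlinarith

theorem top_all (H : Rt L h) : h ⬝ᵥ f = 0 := by
  -- positive roots
  have main : ∀ u, Pos L v u → u ⬝ᵥ f = 0 := by
    intro u hu
    rcases (top_dom D hv Hθ hmax hu).eq_or_lt with h1 | h1
    · obtain ⟨k, hk, hkθ, hku⟩ : ∃ k, Rt L k ∧ 0 < k ⬝ᵥ θ ∧ k ⬝ᵥ u ≠ 0 := by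
        obtain ⟨k, hk, hkθ, hku⟩ := link D Hθ hu.1
        rcases lt_or_gt_of_ne hkθ with h2 | h2
        · refine ⟨-k, hk.neg, ?_, ?_⟩
          · rw [neg_dotProduct]
            linarith
          · rw [neg_dotProduct]
            exact neg_ne_zero.2 hku
        · exact ⟨k, hk, h2, hku⟩
      have hpos : ∀ k, Rt L k → 0 < k ⬝ᵥ θ → Pos L v k := by
        intro k hk h2
        rcases hk.pos_or hv with h3 | h3
        · exact h3
        · have h4 := top_dom D hv Hθ hmax h3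
          rw [neg_dotProduct] at h4
          linarith
      have h3 := top_orth D hv Hθ hmax hf hθf (hpos k hk hkθ) hkθ
      obtain ⟨c, hc, hc1, hc2⟩ := Rt.refl D.toLat hu.1 hk
      have h4 : 0 < (k - (c : ℚ) • u) ⬝ᵥ θ := by
        rw [sub_dotProduct, smul_dotProduct, ← h1, smul_zero, sub_zero]
        exact hkθ
      have h5 := top_orth D hv Hθ hmax hf hθf (hpos _ hc h4) h4
      rw [sub_dotProduct, smul_dotProduct, h3, zero_sub, neg_eq_zero, smul_eq_mul] at h5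
      rcases mul_eq_zero.1 h5 with h6 | h6
      · exfalso
        rw [h6, zero_mul] at hc1
        apply hku
        rw [dotProduct_comm]
        linarith
      · exact h6
    · exact top_orth D hv Hθ hmax hf hθf hu h1
  rcases H.pos_or hv with h1 | h1
  · exact main h h1
  · have h2 := main _ h1
    rwa [neg_dotProduct, neg_eq_zero] at h2

end

end Pool.Agent.PrimePow.CC
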