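import Mathlib

/-!
# Reflections of lattices of functions: basic properties
-/

set_option autoImplicit false
set_option linter.unusedSectionVars false

namespace Pool.Agent.PrimePow.CC

variable {Ω : Type*} [Fintype Ω]

/-- `π` is a reflection of the lattice `L` in the vector `h`. -/
structure Rf (L : AddSubgroup (Ω → ℚ)) (h : Ω → ℚ) (π : Equiv.Perm Ω) : Prop where
  mem : h ∈ L
  ne : h ≠ 0
  val : ∀ ω, h ω = -1 ∨ h ω = 0 ∨ h ω = 1
  refl : ∀ f ∈ L, ∃ a : ℤ, ∀ ω, f (π ω) = f ω - a * h ω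
  neg : ∀ ω, h (π ω) = -h ω

/-- `L` is a lattice of integer functions which contains the constants and separates the points,
and its reflections are transitive. -/
structure Lat (L : AddSubgroup (Ω → ℚ)) : Prop where
  int : ∀ f ∈ L, ∀ ω, ∃ z : ℤ, f ω = z
  one : (fun _ => (1 : ℚ)) ∈ L
  sep : ∀ ω ω', (∀ f ∈ L, f ω = f ω') → ω = ω'
  tr : ∀ A : Set Ω, A.Nonempty → (∀ h π, Rf L h π → ∀ ω ∈ A, π ω ∈ A) → A = Set.univ

variable {L : AddSubgroup (Ω → ℚ)} {h h' f : Ω → ℚ} {π π' : Equiv.Perm Ω}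

theorem dot_perm (π : Equiv.Perm Ω) (u v : Ω → ℚ) :
    (fun ω => u (π ω)) ⬝ᵥ (fun ω => v (π ω)) = u ⬝ᵥ v := by
  simp only [dotProduct]
  exact Equiv.sum_comp π fun ω => u ω * v ω

theorem dot_pos {u : Ω → ℚ} (hu : u ≠ 0) : 0 < u ⬝ᵥ u := by
  obtain ⟨ω, hω⟩ : ∃ ω, u ω ≠ 0 := by
    by_contra hcon
    push Not at hcon
    exact hu (funext hcon)
  exact Finset.sum_pos' (fun ω _ => mul_self_nonneg (u ω))
    ⟨ω, Finset.mem_univ ω, mul_self_pos.2 hω⟩

namespace Rf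

theorem coef (H : Rf L h π) (hf : f ∈ L) :
    ∃ a : ℤ, (∀ ω, f (π ω) = f ω - a * h ω) ∧ a * (h ⬝ᵥ h) = 2 * (h ⬝ᵥ f) := by
  obtain ⟨a, ha⟩ := H.refl f hf
  refine ⟨a, ha, ?_⟩
  have h1 := dot_perm π h f
  have h2 : (fun ω => h (π ω)) ⬝ᵥ (fun ω => f (π ω)) = -(h ⬝ᵥ f) + a * (h ⬝ᵥ h) := by
    simp only [dotProduct, H.neg, ha]
    rw [Finset.mul_sum, ← Finset.sum_neg_distrib, ← Finset.sum_add_distrib]
    exact Finset.sum_congr rfl fun ω _ => by ring
  rw [h2] at h1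
  linarith

theorem sum_zero (H : Rf L h π) : ∑ ω, h ω = 0 := by
  have h1 := Equiv.sum_comp π h
  simp only [H.neg, Finset.sum_neg_distrib] at h1
  linarith

theorem mem' (H : Rf L h π) (hf : f ∈ L) : (fun ω => f (π ω)) ∈ L := by
  obtain ⟨a, ha⟩ := H.refl f hf
  have h1 : (fun ω => f (π ω)) = f - a • h := by
    funext ω
    rw [ha, Pi.sub_apply, Pi.smul_apply, zsmul_eq_mul]
  rw [h1]
  exact L.sub_mem hf (L.zsmul_mem H.mem a)

theorem neg_vec (H : Rf L h π) : Rf L (-h) π := by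
  refine ⟨L.neg_mem H.mem, neg_ne_zero.2 H.ne, fun ω => ?_, fun f hf => ?_, fun ω => ?_⟩
  · rw [Pi.neg_apply]
    rcases H.val ω with h1 | h1 | h1 <;> rw [h1] <;> norm_num
  · obtain ⟨a, ha⟩ := H.refl f hf
    refine ⟨-a, fun ω => ?_⟩
    rw [ha, Pi.neg_apply]
    push_cast
    ring
  · rw [Pi.neg_apply, Pi.neg_apply, H.neg]

theorem dot_self_pos (H : Rf L h π) : 0 < h ⬝ᵥ h := dot_pos H.ne

/-- orthogonal vectors are fixed -/
theorem fix (H : Rf L h π) (hf : f ∈ L) (h0 : h ⬝ᵥ f = 0) (ω : Ω) : f (π ω) = f ω := by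
  obtain ⟨a, ha, ha'⟩ := H.coef hf
  rw [h0, mul_zero] at ha'
  have h1 : (a : ℚ) = 0 := by
    rcases mul_eq_zero.1 ha' with h2 | h2
    · exact h2
    · exact absurd h2 H.dot_self_pos.ne'
  rw [ha, h1, zero_mul, sub_zero]

end Rf

namespace Lat

variable (hL : Lat L)
include hL

theorem sq (H : Rf L h π) (ω : Ω) : π (π ω) = ω := by
  apply hL.sep
  intro f hf
  obtain ⟨a, ha⟩ := H.refl f hf
  rw [ha, ha, H.neg]
  ring

/-- conjugate reflections -/
theorem conj (H : Rf L h π) (H' : Rf L h' π') :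
    Rf L (fun ω => h' (π ω)) (π * π' * π) := by
  refine ⟨H.mem' H'.mem, ?_, fun ω => H'.val _, fun f hf => ?_, fun ω => ?_⟩
  · intro h0
    apply H'.ne
    funext ω
    have h1 := congrFun h0 (π ω)
    simp only [hL.sq H] at h1
    exact h1
  · obtain ⟨b, hb⟩ := H'.refl _ (H.mem' hf)
    refine ⟨b, fun ω => ?_⟩
    change f (π (π' (π ω))) = _
    rw [hb, hL.sq H]
  · change h' (π (π (π' (π ω)))) = _
    rw [hL.sq H, H'.neg]

/-- orthogonal reflections commute -/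
theorem comm (H : Rf L h π) (H' : Rf L h' π') (h0 : h ⬝ᵥ h' = 0) (ω : Ω) :
    π (π' ω) = π' (π ω) := by
  apply hL.sep
  intro f hf
  obtain ⟨a, ha⟩ := H.refl f hf
  obtain ⟨b, hb⟩ := H'.refl f hf
  rw [ha, hb, hb, ha, H'.fix H.mem (by rw [dotProduct_comm]; exact h0), H.fix H'.mem h0]
  ring

/-- a vector orthogonal to all roots is constant -/
theorem const (hf : f ∈ L) (h0 : ∀ h π, Rf L h π → h ⬝ᵥ f = 0) (ω ω' : Ω) : f ω = f ω' := by
  have h1 := hL.tr {x | f x = f ω} ⟨ω, rfl⟩ (fun h π H x hx => by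
    rw [Set.mem_ofPred_eq] at hx ⊢
    rw [H.fix hf (h0 h π H), hx])
  have h2 : ω' ∈ {x | f x = f ω} := h1 ▸ Set.mem_univ ω'
  exact h2.symm

end Lat

/-- orbits of equal size -/
theorem dvd_of_orbits {G : Type*} [Group G] [MulAction G Ω] {m : ℕ}
    (hm : ∀ ω : Ω, Nat.card (MulAction.orbit G ω) = m) (A : Finset Ω)
    (hA : ∀ g : G, ∀ ω ∈ A, g • ω ∈ A) : m ∣ A.card := by
  classical
  rw [Finset.card_eq_sum_card_image (fun ω => (Quotient.mk (MulAction.orbitRel G Ω) ω)) A]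
  refine Finset.dvd_sum fun q hq => ?_
  obtain ⟨ω, hω, rfl⟩ := Finset.mem_image.1 hq
  have h1 : ((A.filter fun x => Quotient.mk (MulAction.orbitRel G Ω) x =
      Quotient.mk (MulAction.orbitRel G Ω) ω : Finset Ω) : Set Ω) = MulAction.orbit G ω := by
    ext x
    rw [Finset.mem_coe, Finset.mem_filter, Quotient.eq]
    constructor
    · rintro ⟨_, h⟩
      exact h
    · rintro ⟨g, rfl⟩
      exact ⟨hA g ω hω, ⟨g, rfl⟩⟩
  rw [← hm ω, ← h1, Nat.card_coe_set_eq, Set.ncard_coe_finset]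

variable {e : Ω → ℚ} {a : ℕ}

/-- every root is not orthogonal to some root which is not orthogonal to `e` -/
theorem irr1 (hL : Lat L) (he : e ∈ L) (hval : ∀ ω, e ω = 0 ∨ e ω = 1) (hsum : ∑ ω, e ω = a)
    (hcop : Nat.Coprime a (Fintype.card Ω)) (H : Rf L h π) :
    ∃ k ρ, Rf L k ρ ∧ k ⬝ᵥ e ≠ 0 ∧ k ⬝ᵥ h ≠ 0 := by
  classical
  by_contra hcon
  push Not at hcon
  let P : (Ω → ℚ) → Prop := fun u => ∀ k ρ, Rf L k ρ → k ⬝ᵥ e ≠ 0 → k ⬝ᵥ u = 0
  have hPh : P h := fun k ρ hk hke => hcon k ρ hk hke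
  -- elements of `P` are orthogonal to `e`
  have hPe : ∀ u ρ, Rf L u ρ → P u → u ⬝ᵥ e = 0 := by
    intro u ρ hu hPu
    by_contra h0
    exact hu.dot_self_pos.ne' (hPu u ρ hu h0)
  -- and to the other roots
  have hPo : ∀ u ρ, Rf L u ρ → P u → ∀ k τ, Rf L k τ → ¬ P k → k ⬝ᵥ u = 0 := by
    intro u ρ hu hPu k τ hk hPk
    by_cases hke : k ⬝ᵥ e = 0
    · have hPk' : ∃ b σ, Rf L b σ ∧ b ⬝ᵥ e ≠ 0 ∧ b ⬝ᵥ k ≠ 0 := by
        by_contra hc
        push Not at hc
        exact hPk fun b σ hb hbe => hc b σ hb hbe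
      obtain ⟨b, σ, hb, hbe, hbk⟩ := hPk'
      obtain ⟨c, hc, hc'⟩ := hk.coef hb.mem
      have hb' := hL.conj hk hb
      have hfun : (fun ω => b (τ ω)) = b - (c : ℚ) • k := by
        funext ω
        rw [hc, Pi.sub_apply, Pi.smul_apply, smul_eq_mul]
      rw [hfun] at hb'
      have h1 : (b - (c : ℚ) • k) ⬝ᵥ e ≠ 0 := by
        rw [sub_dotProduct, smul_dotProduct, hke, smul_zero, sub_zero]
        exact hbe
      have h2 := hPu _ _ hb' h1
      rw [sub_dotProduct, smul_dotProduct, hPu b σ hb hbe, zero_sub, neg_eq_zero,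
        smul_eq_mul] at h2
      rcases mul_eq_zero.1 h2 with h3 | h3
      · exfalso
        rw [h3, zero_mul, dotProduct_comm] at hc'
        apply hbk
        linarith
      · exact h3
    · exact hPu k τ hk hke
  have hinv : ∀ (x : Equiv.Perm Ω) (ω : Ω), x (x⁻¹ ω) = ω := fun x ω => x.apply_symm_apply ω
  -- the group generated by the reflections in `P`
  let Γ : Subgroup (Equiv.Perm Ω) := Subgroup.closure {ρ | ∃ u, Rf L u ρ ∧ P u}
  have hcommΓ : ∀ k τ, Rf L k τ → ¬ P k → ∀ γ ∈ Γ, ∀ ω, τ (γ ω) = γ (τ ω) := by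
    intro k τ hk hPk γ hγ
    induction hγ using Subgroup.closure_induction with
    | mem ρ hρ =>
      obtain ⟨u, hu, hPu⟩ := hρ
      exact fun ω => hL.comm hk hu (hPo u ρ hu hPu k τ hk hPk) ω
    | one => exact fun ω => rfl
    | mul x y _ _ hx hy =>
      intro ω
      rw [Equiv.Perm.mul_apply, Equiv.Perm.mul_apply, hx, hy]
    | inv x _ hx =>
      intro ω
      apply x.injective
      rw [← hx, hinv, hinv]
  have heΓ : ∀ γ ∈ Γ, ∀ ω, e (γ ω) = e ω := by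
    intro γ hγ
    induction hγ using Subgroup.closure_induction with
    | mem ρ hρ =>
      obtain ⟨u, hu, hPu⟩ := hρ
      exact hu.fix he (hPe u ρ hu hPu)
    | one => exact fun ω => rfl
    | mul x y _ _ hx hy =>
      intro ω
      rw [Equiv.Perm.mul_apply, hx, hy]
    | inv x _ hx =>
      intro ω
      have h1 := hx (x⁻¹ ω)
      rw [hinv] at h1
      exact h1.symm
  -- all orbits have the same size
  obtain ⟨ω₀⟩ : Nonempty Ω := by
    by_contra hne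
    rw [not_nonempty_iff] at hne
    exact H.ne (Subsingleton.elim _ _)
  obtain ⟨m, hm⟩ : ∃ m, m = Nat.card (MulAction.orbit Γ ω₀) := ⟨_, rfl⟩
  have horb : ∀ ω : Ω, Nat.card (MulAction.orbit Γ ω) = m := by
    have h1 := hL.tr {ω | Nat.card (MulAction.orbit Γ ω) = m} ⟨ω₀, hm.symm⟩ (by
      intro k τ hk ω hω
      rw [Set.mem_ofPred_eq] at hω ⊢
      by_cases hPk : P k
      · have h2 : τ ∈ Γ := Subgroup.subset_closure ⟨k, hk, hPk⟩
        have h3 : MulAction.orbit Γ (τ ω) = MulAction.orbit Γ ω :=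
          MulAction.orbit_eq_iff.2 ⟨⟨τ, h2⟩, rfl⟩
        rw [h3, hω]
      · rw [← hω]
        have h2 : MulAction.orbit Γ (τ ω) = τ '' (MulAction.orbit Γ ω) := by
          ext x
          constructor
          · rintro ⟨⟨γ, hγ⟩, rfl⟩
            exact ⟨γ ω, ⟨⟨γ, hγ⟩, rfl⟩, hcommΓ k τ hk hPk γ hγ ω⟩
          · rintro ⟨_, ⟨⟨γ, hγ⟩, rfl⟩, rfl⟩
            exact ⟨⟨γ, hγ⟩, (hcommΓ k τ hk hPk γ hγ ω).symm⟩
        rw [h2]
        exact Nat.card_image_of_injective τ.injective _)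
    intro ω
    have h2 : ω ∈ {ω | Nat.card (MulAction.orbit Γ ω) = m} := h1 ▸ Set.mem_univ ω
    exact h2
  have hd1 : m ∣ Fintype.card Ω := by
    rw [← Finset.card_univ]
    exact dvd_of_orbits horb Finset.univ fun _ _ _ => Finset.mem_univ _
  have hd2 : m ∣ a := by
    have h1 : a = (Finset.univ.filter fun ω => e ω = 1).card := by
      have h2 : ∑ ω, e ω = ((Finset.univ.filter fun ω => e ω = 1).card : ℚ) := by
        rw [Finset.card_filter]
        push_cast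
        refine Finset.sum_congr rfl fun ω _ => ?_
        rcases hval ω with h3 | h3 <;> rw [h3] <;> norm_num
      rw [hsum] at h2
      exact_mod_cast h2
    rw [h1]
    refine dvd_of_orbits horb _ fun γ ω hω => ?_
    rw [Finset.mem_filter] at hω ⊢
    refine ⟨Finset.mem_univ _, ?_⟩
    rw [← hω.2]
    exact heΓ γ γ.2 ω
  have hm1 : m = 1 := Nat.dvd_one.1 (hcop ▸ Nat.dvd_gcd hd2 hd1)
  -- the reflections are trivial
  have hπ : ∀ ω, π ω = ω := by
    intro ω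
    have h1 := horb ω
    rw [hm1] at h1
    have h2 : Subsingleton (MulAction.orbit Γ ω) := (Nat.card_eq_one_iff_unique.1 h1).1
    have h3 := h2.elim ⟨π ω, ⟨⟨π, Subgroup.subset_closure ⟨h, H, hPh⟩⟩, rfl⟩⟩
      ⟨ω, MulAction.mem_orbit_self ω⟩
    exact congrArg Subtype.val h3
  apply H.ne
  funext ω
  have h1 := H.neg ω
  rw [hπ] at h1
  rw [Pi.zero_apply]
  linarith

end Pool.Agent.PrimePow.CC
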