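import Pool.Agent.PrimePow.Comb1

/-!
# Reflections of lattices of functions: connectedness
-/

set_option autoImplicit false
set_option linter.unusedSectionVars false

namespace Pool.Agent.PrimePow.CC

variable {Ω : Type*} [Fintype Ω] {L : AddSubgroup (Ω → ℚ)} {h h' f : Ω → ℚ}
  {π π' : Equiv.Perm Ω} {e : Ω → ℚ} {a : ℕ}

/-- the reflection of a root -/
theorem conj_eq (hL : Lat L) (H : Rf L h π) (H' : Rf L h' π') :
    ∃ c : ℤ, Rf L (h' - (c : ℚ) • h) (π * π' * π) ∧ c * (h ⬝ᵥ h) = 2 * (h ⬝ᵥ h') ∧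
      ∀ ω, h' (π ω) = h' ω - c * h ω := by
  obtain ⟨c, hc, hc'⟩ := H.coef H'.mem
  refine ⟨c, ?_, hc', hc⟩
  have h1 := hL.conj H H'
  have hfun : (fun ω => h' (π ω)) = h' - (c : ℚ) • h := by
    funext ω
    rw [hc, Pi.sub_apply, Pi.smul_apply, smul_eq_mul]
  rwa [hfun] at h1

/-- the roots are not the union of two orthogonal subsets -/
theorem irr2 (hL : Lat L) (he : e ∈ L) (hval : ∀ ω, e ω = 0 ∨ e ω = 1) (hsum : ∑ ω, e ω = a)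
    (hcop : Nat.Coprime a (Fintype.card Ω)) (P : (Ω → ℚ) → Prop)
    (hP : ∀ h π, Rf L h π → P h → ∀ k ρ, Rf L k ρ → ¬ P k → k ⬝ᵥ h = 0)
    (hP1 : ∃ h π, Rf L h π ∧ P h) (hP2 : ∃ h π, Rf L h π ∧ ¬ P h) : False := by
  classical
  -- roots not orthogonal to `e` in both parts
  obtain ⟨k₁, ρ₁, hk₁, hk₁e, hPk₁⟩ : ∃ k ρ, Rf L k ρ ∧ k ⬝ᵥ e ≠ 0 ∧ P k := by
    obtain ⟨h, π, H, hPh⟩ := hP1
    obtain ⟨k, ρ, hk, hke, hkh⟩ := irr1 hL he hval hsum hcop H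
    refine ⟨k, ρ, hk, hke, ?_⟩
    by_contra hPk
    exact hkh (hP h π H hPh k ρ hk hPk)
  obtain ⟨k₂, ρ₂, hk₂, hk₂e, hPk₂⟩ : ∃ k ρ, Rf L k ρ ∧ k ⬝ᵥ e ≠ 0 ∧ ¬ P k := by
    obtain ⟨h, π, H, hPh⟩ := hP2
    obtain ⟨k, ρ, hk, hke, hkh⟩ := irr1 hL he hval hsum hcop H
    refine ⟨k, ρ, hk, hke, ?_⟩
    intro hPk
    rw [dotProduct_comm] at hkh
    exact hkh (hP k ρ hk hPk h π H hPh)
  -- their supports are disjoint
  have hdisj : ∀ k ρ, Rf L k ρ → k ⬝ᵥ e ≠ 0 → P k → ∀ k' ρ', Rf L k' ρ' → k' ⬝ᵥ e ≠ 0 → ¬ P k' →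
      ∀ ω, k ω ≠ 0 → k' ω = 0 := by
    intro k ρ hk hke hPk k' ρ' hk' hke' hPk' ω hkω
    by_contra hkω'
    obtain ⟨c, hc, hc'⟩ := hk.coef he
    obtain ⟨d, hd, hd'⟩ := hk'.coef he
    have hc0 : (c : ℚ) ≠ 0 := by
      intro h0
      rw [h0, zero_mul] at hc'
      apply hke
      linarith
    have hd0 : (d : ℚ) ≠ 0 := by
      intro h0
      rw [h0, zero_mul] at hd'
      apply hke'
      linarith
    have e1 := hc ω
    have e2 := hd ω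
    have e3 := hd (ρ ω)
    rw [hk.fix hk'.mem (by rw [dotProduct_comm]; exact hP k ρ hk hPk k' ρ' hk' hPk'), e1] at e3
    have x0 : c * k ω ≠ 0 := mul_ne_zero hc0 hkω
    have y0 : d * k' ω ≠ 0 := mul_ne_zero hd0 hkω'
    rcases hval ω with v0 | v0 <;> rcases hval (ρ ω) with v1 | v1 <;>
      rcases hval (ρ' ω) with v2 | v2 <;> rcases hval (ρ' (ρ ω)) with v3 | v3 <;>
      rw [v0] at e1 e2 e3 <;> rw [v1] at e1 <;> rw [v2] at e2 <;> rw [v3] at e3 <;>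
      first
        | exact x0 (by linarith)
        | exact y0 (by linarith)
        | (exfalso; linarith)
  obtain ⟨ω, hω⟩ : ∃ ω, k₂ ω ≠ 0 := by
    by_contra hcon
    push Not at hcon
    exact hk₂.ne (funext hcon)
  have hvan : ∀ k ρ, Rf L k ρ → k ⬝ᵥ e ≠ 0 → P k → k ω = 0 := by
    intro k ρ hk hke hPk
    by_contra h0
    exact hω (hdisj k ρ hk hke hPk k₂ ρ₂ hk₂ hk₂e hPk₂ ω h0)
  -- reflections preserve `P`
  have hPrefl : ∀ k ρ, Rf L k ρ → P k → ∀ u σ, Rf L u σ → P u → ∀ c : ℚ,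
      (∃ τ, Rf L (u - c • k) τ) → P (u - c • k) := by
    intro k ρ hk hPk u σ hu hPu c hc
    obtain ⟨τ, hτ⟩ := hc
    by_contra hPn
    have h1 := hP k ρ hk hPk _ τ hτ hPn
    have h2 := hP u σ hu hPu _ τ hτ hPn
    apply hτ.dot_self_pos.ne'
    rw [dotProduct_sub, h2, dotProduct_smul, h1, smul_zero, sub_zero]
  -- a root in `P` which does not vanish at `ω`
  obtain ⟨h₀, π₀, H₀, hPh₀, hh₀⟩ : ∃ h₀ π₀, Rf L h₀ π₀ ∧ P h₀ ∧ h₀ ω ≠ 0 := by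
    have h1 := hL.tr {ω | ∃ h₀ π₀, Rf L h₀ π₀ ∧ P h₀ ∧ h₀ ω ≠ 0} (by
      obtain ⟨ω₁, hω₁⟩ : ∃ ω, k₁ ω ≠ 0 := by
        by_contra hcon
        push Not at hcon
        exact hk₁.ne (funext hcon)
      exact ⟨ω₁, k₁, ρ₁, hk₁, hPk₁, hω₁⟩) (by
      rintro k ρ hk x ⟨u, σ, hu, hPu, hux⟩
      by_cases hPk : P k
      · obtain ⟨c, hc, -, hc'⟩ := conj_eq hL hk hu
        refine ⟨_, _, hc, hPrefl k ρ hk hPk u σ hu hPu c ⟨_, hc⟩, ?_⟩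
        rw [Pi.sub_apply, Pi.smul_apply, smul_eq_mul, ← hc', hL.sq hk]
        exact hux
      · refine ⟨u, σ, hu, hPu, ?_⟩
        rw [hk.fix hu.mem (hP u σ hu hPu k ρ hk hPk)]
        exact hux)
    have h2 : ω ∈ {ω | ∃ h₀ π₀, Rf L h₀ π₀ ∧ P h₀ ∧ h₀ ω ≠ 0} := h1 ▸ Set.mem_univ ω
    exact h2
  have hh₀e : h₀ ⬝ᵥ e = 0 := by
    by_contra h0
    exact hh₀ (hvan h₀ π₀ H₀ h0 hPh₀)
  obtain ⟨k, ρ, hk, hke, hkh⟩ := irr1 hL he hval hsum hcop H₀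
  by_cases hPk : P k
  · obtain ⟨c, hc, hc2, hc'⟩ := conj_eq hL H₀ hk
    have h1 : (k - (c : ℚ) • h₀) ⬝ᵥ e ≠ 0 := by
      rw [sub_dotProduct, smul_dotProduct, hh₀e, smul_zero, sub_zero]
      exact hke
    have h2 := hvan _ _ hc h1 (hPrefl h₀ π₀ H₀ hPh₀ k ρ hk hPk c ⟨_, hc⟩)
    rw [Pi.sub_apply, Pi.smul_apply, smul_eq_mul, hvan k ρ hk hke hPk, zero_sub,
      neg_eq_zero] at h2
    rcases mul_eq_zero.1 h2 with h3 | h3
    · rw [h3, zero_mul] at hc2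
      apply hkh
      rw [dotProduct_comm]
      linarith
    · exact hh₀ h3
  · exact hkh (hP h₀ π₀ H₀ hPh₀ k ρ hk hPk)

end Pool.Agent.PrimePow.CC
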