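import Pool.Agent.PrimePow.Comb3

/-!
# Reflections of lattices of functions: simple roots, minuscule elements, the conclusion
-/

set_option autoImplicit false
set_option linter.unusedSectionVars false

namespace Pool.Agent.PrimePow.CC

variable {Ω : Type*} [Fintype Ω] {L : AddSubgroup (Ω → ℚ)} {h h' f v θ : Ω → ℚ}
  {π π' : Equiv.Perm Ω} {e : Ω → ℚ} {a : ℕ}

/-- positive roots are sums of simple roots -/
theorem pos_induction {p : (Ω → ℚ) → Prop} (hadd : ∀ u w, p u → p w → p (u + w))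
    (hs : ∀ h, Simp L v h → p (rt h)) (H : Pos L v h) : p (rt h) := by
  by_contra hcon
  have hfin : {h | Pos L v h ∧ ¬ p (rt h)}.Finite := (Rt.fin L).subset fun _ hu => hu.1.1
  obtain ⟨u, ⟨hu, hpu⟩, hmin⟩ := Set.exists_min_image _ (fun u => rt u ⬝ᵥ v) hfin ⟨h, H, hcon⟩
  have h1 : ¬ Simp L v u := fun h2 => hpu (hs u h2)
  have h2 : ∃ h₁ h₂, Pos L v h₁ ∧ Pos L v h₂ ∧ rt u = rt h₁ + rt h₂ := by
    by_contra h3
    push Not at h3
    exact h1 ⟨hu, h3⟩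
  obtain ⟨h₁, h₂, H₁, H₂, h3⟩ := h2
  have p1 : p (rt h₁) := by
    by_contra h4
    have h5 := hmin h₁ ⟨H₁, h4⟩
    simp only [h3, add_dotProduct] at h5
    have h6 := rt_pos H₂
    linarith
  have p2 : p (rt h₂) := by
    by_contra h4
    have h5 := hmin h₂ ⟨H₂, h4⟩
    simp only [h3, add_dotProduct] at h5
    have h6 := rt_pos H₁
    linarith
  exact hpu (h3 ▸ hadd _ _ p1 p2)

theorem diff_root (hL : Lat L) (H : Rt L h) (H' : Rt L h') (hne : h ≠ h') (h0 : 0 < h ⬝ᵥ h')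
    (hle : h' ⬝ᵥ h' ≤ h ⬝ᵥ h) : ∃ k, Rt L k ∧ rt k = rt h - rt h' := by
  obtain ⟨b, -, hb, -⟩ := Rt.refl hL H H'
  obtain ⟨c, hc, hc1, hc2⟩ := Rt.refl hL H' H
  have hh := H.sq_pos
  have hh' := H'.sq_pos
  have h1 : 0 < (h - h') ⬝ᵥ (h - h') := dot_pos (sub_ne_zero.2 hne)
  rw [sub_dotProduct, dotProduct_sub, dotProduct_sub, dotProduct_comm h' h] at h1
  have h2 : (0 : ℚ) < b := by
    by_contra h7
    push Not at h7
    have := mul_nonpos_of_nonpos_of_nonneg h7 hh.le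
    linarith
  have h3 : (b : ℚ) < 2 := by
    by_contra h7
    push Not at h7
    have := mul_le_mul_of_nonneg_right h7 hh.le
    linarith
  have h4 : b = 1 := by
    have h5 : 0 < b := by exact_mod_cast h2
    have h6 : b < 2 := by exact_mod_cast h3
    omega
  rw [h4, Int.cast_one, one_mul] at hb
  refine ⟨_, hc, ?_⟩
  rw [rt, rt, rt, hc2, smul_sub, smul_smul]
  congr 2
  rw [dotProduct_comm h' h, ← hb] at hc1
  field_simp
  linarith

/-- distinct simple roots are obtuse -/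
theorem obtuse (hL : Lat L) (hv : Gen v) (H : Simp L v h) (H' : Simp L v h') (hne : h ≠ h') :
    h ⬝ᵥ h' ≤ 0 := by
  by_contra hcon
  push Not at hcon
  have key : ∀ u w, Simp L v u → Simp L v w → u ≠ w → 0 < u ⬝ᵥ w → w ⬝ᵥ w ≤ u ⬝ᵥ u → False := by
    intro u w hu hw huw h0 hle
    obtain ⟨k, hk, hk1⟩ := diff_root hL hu.1.1 hw.1.1 huw h0 hle
    rcases hk.pos_or hv with h1 | h1
    · exact hu.2 k w h1 hw.1 (by rw [hk1, sub_add_cancel])
    · exact hw.2 u (-k) hu.1 h1 (by rw [rt_neg, hk1]; abel)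
  rcases le_total (h' ⬝ᵥ h') (h ⬝ᵥ h) with h1 | h1
  · exact key h h' H H' hne hcon h1
  · exact key h' h H' H (Ne.symm hne) (by rw [dotProduct_comm]; exact hcon) h1

theorem Simp.fin (L : AddSubgroup (Ω → ℚ)) (v : Ω → ℚ) : {h | Simp L v h}.Finite :=
  (Rt.fin L).subset fun _ hu => hu.1.1

/-- the coefficients of a positive root -/
theorem exists_coef (H : Pos L v h) : ∃ n : (Ω → ℚ) → ℕ,
    rt h = ∑ b ∈ (Simp.fin L v).toFinset, n b • rt b := by
  classical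
  refine pos_induction (p := fun u => ∃ n : (Ω → ℚ) → ℕ,
    u = ∑ b ∈ (Simp.fin L v).toFinset, n b • rt b) ?_ ?_ H
  · rintro u w ⟨n, rfl⟩ ⟨m, rfl⟩
    refine ⟨fun b => n b + m b, ?_⟩
    rw [← Finset.sum_add_distrib]
    exact Finset.sum_congr rfl fun b _ => (add_smul _ _ _).symm
  · intro u hu
    refine ⟨fun b => if b = u then 1 else 0, ?_⟩
    rw [Finset.sum_eq_single u]
    · simp
    · intro b _ hb
      simp [hb]
    · intro hb
      exact absurd ((Simp.fin L v).mem_toFinset.2 hu) hb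

theorem dom_of_simp (hs : ∀ h, Simp L v h → 0 ≤ h ⬝ᵥ f) (H : Pos L v h) : 0 ≤ h ⬝ᵥ f := by
  have h1 : 0 ≤ rt h ⬝ᵥ f := by
    refine pos_induction (p := fun u => 0 ≤ u ⬝ᵥ f) ?_ ?_ H
    · intro u w hu hw
      rw [add_dotProduct]
      exact add_nonneg hu hw
    · intro u hu
      rw [rt_dot]
      exact mul_nonneg (div_nonneg two_pos.le hu.1.1.sq_pos.le) (hs u hu)
  rw [rt_dot] at h1
  exact nonneg_of_mul_nonneg_right h1 (div_pos two_pos H.1.sq_pos)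

section

variable (D : Dat L e a) (hv : Gen v) (Hθ : Rt L θ)
  (hmax : ∀ h, Rt L h → rt h ⬝ᵥ v ≤ rt θ ⬝ᵥ v)
  {n : (Ω → ℚ) → ℕ} (hn : rt θ = ∑ b ∈ (Simp.fin L v).toFinset, n b • rt b)
include D hv Hθ hmax hn

/-- all coefficients of the highest root are positive -/
theorem full_support {z : Ω → ℚ} (hz : Simp L v z) : n z ≠ 0 := by
  intro hz0
  -- the two parts of the simple roots are orthogonal
  have horth : ∀ w, Simp L v w → n w = 0 → ∀ s, Simp L v s → n s ≠ 0 → w ⬝ᵥ s = 0 := by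
    intro w hw hw0 s hs hs0
    have h1 : 0 ≤ w ⬝ᵥ rt θ := by
      have h2 := top_dom D hv Hθ hmax hw.1
      rw [dotProduct_comm, rt_dot]
      rw [dotProduct_comm] at h2
      exact mul_nonneg (div_nonneg two_pos.le Hθ.sq_pos.le) h2
    rw [hn, dotProduct_sum] at h1
    have h3 : ∀ b ∈ (Simp.fin L v).toFinset, w ⬝ᵥ (n b • rt b) ≤ 0 := by
      intro b hb
      rw [(Simp.fin L v).mem_toFinset] at hb
      by_cases hb0 : n b = 0
      · rw [hb0, zero_smul, dotProduct_zero]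
      · have hne : w ≠ b := by
          rintro rfl
          exact hb0 hw0
        have h4 := obtuse D.toLat hv hw hb hne
        rw [dotProduct_smul, dotProduct_comm, rt_dot, nsmul_eq_mul]
        rw [dotProduct_comm] at h4
        refine mul_nonpos_of_nonneg_of_nonpos (Nat.cast_nonneg _)
          (mul_nonpos_of_nonneg_of_nonpos (div_nonneg two_pos.le hb.1.1.sq_pos.le) h4)
    have h4 : ∑ b ∈ (Simp.fin L v).toFinset, w ⬝ᵥ (n b • rt b) = 0 :=
      le_antisymm (Finset.sum_nonpos h3) h1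
    have h5 := (Finset.sum_eq_zero_iff_of_nonpos h3).1 h4 s ((Simp.fin L v).mem_toFinset.2 hs)
    rw [dotProduct_smul, dotProduct_comm, rt_dot, nsmul_eq_mul] at h5
    rw [dotProduct_comm]
    have h6 : (n s : ℚ) ≠ 0 := Nat.cast_ne_zero.2 hs0
    have h7 : 2 / (s ⬝ᵥ s) ≠ 0 := (div_pos two_pos hs.1.1.sq_pos).ne'
    simpa [h6, hs.1.1.sq_pos.ne'] using h5
  -- a highest root of the span of the other part
  obtain ⟨U, hU⟩ : ∃ U : Submodule ℚ (Ω → ℚ), U = Submodule.span ℚ {w | Simp L v w ∧ n w = 0} :=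
    ⟨_, rfl⟩
  have hfin : {h | Rt L h ∧ h ∈ U}.Finite := (Rt.fin L).subset fun _ hu => hu.1
  have hzU : ∀ w, Simp L v w → n w = 0 → w ∈ U := by
    intro w hw hw0
    rw [hU]
    exact Submodule.subset_span ⟨hw, hw0⟩
  obtain ⟨θ', ⟨Hθ', hθ'U⟩, hmax'⟩ := Set.exists_max_image _ (fun u => rt u ⬝ᵥ v) hfin
    ⟨z, hz.1.1, hzU z hz hz0⟩
  have hsU : ∀ s, Simp L v s → n s ≠ 0 → s ⬝ᵥ θ' = 0 := by
    intro s hs hs0
    have h1 : U ≤ LinearMap.ker (dotProductBilin ℚ ℚ s : (Ω → ℚ) →ₗ[ℚ] ℚ) := by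
      rw [hU, Submodule.span_le]
      rintro w ⟨hw, hw0⟩
      change s ⬝ᵥ w = 0
      rw [dotProduct_comm]
      exact horth w hw hw0 s hs hs0
    exact h1 hθ'U
  have hdom : ∀ u, Pos L v u → 0 ≤ u ⬝ᵥ θ' := by
    intro u hu
    refine dom_of_simp ?_ hu
    intro s hs
    by_cases hs0 : n s = 0
    · refine dom_of_max D.toLat hs.1 Hθ' ?_
      intro c hc
      exact hmax' _ ⟨hc, U.sub_mem hθ'U (U.smul_mem _ (hzU s hs hs0))⟩
    · exact (hsU s hs hs0).ge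
  have hθθ' : θ ⬝ᵥ θ' = 0 := by
    have h1 : rt θ ⬝ᵥ θ' = 0 := by
      rw [hn, sum_dotProduct]
      refine Finset.sum_eq_zero fun b hb => ?_
      rw [(Simp.fin L v).mem_toFinset] at hb
      by_cases hb0 : n b = 0
      · rw [hb0, zero_smul, zero_dotProduct]
      · rw [smul_dotProduct, rt_dot, hsU b hb hb0, mul_zero, smul_zero]
    rw [rt_dot] at h1
    rcases mul_eq_zero.1 h1 with h2 | h2
    · exact absurd h2 (div_pos two_pos Hθ.sq_pos).ne'
    · exact h2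
  exact Hθ'.sq_pos.ne' (top_all D hv Hθ hmax hdom hθθ' Hθ')

end

/-- minuscule elements -/
theorem exists_min (D : Dat L e a) (v : Ω → ℚ) (k : ℤ) : ∃ f ∈ L, ∑ ω, f ω = k ∧
    ∀ h, Pos L v h → rt h ⬝ᵥ f = 0 ∨ rt h ⬝ᵥ f = 1 := by
  classical
  -- an element of `L` with sum `k`
  obtain ⟨f₀, hf₀, hs₀⟩ : ∃ f ∈ L, ∑ ω, f ω = k := by
    have h1 := Nat.gcd_eq_gcd_ab a (Fintype.card Ω)
    rw [D.hcop] at h1
    refine ⟨(k * Nat.gcdA a (Fintype.card Ω)) • e +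
      (k * Nat.gcdB a (Fintype.card Ω)) • (fun _ => (1 : ℚ)),
      L.add_mem (L.zsmul_mem D.he _) (L.zsmul_mem D.one _), ?_⟩
    simp only [Pi.add_apply, Pi.smul_apply, Finset.sum_add_distrib,
      ← Finset.smul_sum, D.hsum, Finset.sum_const, Finset.card_univ]
    rw [zsmul_eq_mul, zsmul_eq_mul, nsmul_eq_mul, mul_one]
    have h2 : ((a : ℤ) * Nat.gcdA a (Fintype.card Ω) + Fintype.card Ω *
      Nat.gcdB a (Fintype.card Ω) : ℚ) = 1 := by exact_mod_cast h1.symm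
    push_cast at h2 ⊢
    linear_combination (k : ℚ) * h2
  have hint : ∀ f ∈ L, ∃ N : ℕ, f ⬝ᵥ f = N := by
    intro f hf
    choose z hz using D.int f hf
    have h1 : f ⬝ᵥ f = ((∑ ω, z ω * z ω : ℤ) : ℚ) := by
      push_cast
      exact Finset.sum_congr rfl fun ω _ => by rw [hz]
    have h2 : 0 ≤ ∑ ω, z ω * z ω := Finset.sum_nonneg fun ω _ => mul_self_nonneg _
    obtain ⟨N, hN⟩ := Int.eq_ofNat_of_zero_le h2
    refine ⟨N, ?_⟩
    rw [h1, hN]
    rfl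
  have hex : ∃ N : ℕ, ∃ f ∈ L, ∑ ω, f ω = k ∧ f ⬝ᵥ f = N := by
    obtain ⟨N, hN⟩ := hint f₀ hf₀
    exact ⟨N, f₀, hf₀, hs₀, hN⟩
  obtain ⟨N, hN⟩ : ∃ N, N = Nat.find hex := ⟨_, rfl⟩
  have hNs := Nat.find_spec hex
  have hmin : ∀ f ∈ L, ∑ ω, f ω = k → (N : ℚ) ≤ f ⬝ᵥ f := by
    intro f hf hs
    obtain ⟨M, hM⟩ := hint f hf
    rw [hM, hN]
    exact_mod_cast Nat.find_min' hex ⟨f, hf, hs, hM⟩
  have hfin : {f | f ∈ L ∧ ∑ ω, f ω = k ∧ f ⬝ᵥ f = N}.Finite := by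
    refine (Set.Finite.pi' (fun _ : Ω => ((Set.finite_Icc (-(N : ℤ)) N).image
      (fun z : ℤ => (z : ℚ))))).subset ?_
    rintro f ⟨hf, -, hfN⟩ ω
    obtain ⟨z, hz⟩ := D.int f hf ω
    refine ⟨z, ?_, hz.symm⟩
    have h1 : f ω * f ω ≤ N := by
      rw [← hfN]
      exact Finset.single_le_sum (f := fun ω => f ω * f ω) (fun ω _ => mul_self_nonneg _)
        (Finset.mem_univ ω)
    have h2 : z * z ≤ N := by
      rw [hz] at h1
      exact_mod_cast h1
    constructor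
    · nlinarith
    · nlinarith
  obtain ⟨f, ⟨hf, hs, hfN⟩, hmaxf⟩ := Set.exists_max_image _ (fun u => u ⬝ᵥ v) hfin (by
    obtain ⟨f, h1, h2, h3⟩ := hNs
    exact ⟨f, h1, h2, by rw [hN]; exact h3⟩)
  refine ⟨f, hf, hs, ?_⟩
  rintro h ⟨⟨π, H⟩, hpos⟩
  obtain ⟨c, hc, hc'⟩ := H.coef hf
  have hh := H.dot_self_pos
  have h1 : rt h ⬝ᵥ f = c := by
    rw [rt_dot]
    field_simp
    linarith
  -- the neighbours
  have h2 : ∀ j : ℤ, f - j • h ∈ L ∧ ∑ ω, (f - j • h) ω = k ∧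
      (f - j • h) ⬝ᵥ (f - j • h) = N + (h ⬝ᵥ h) * (j * (j - c)) := by
    intro j
    refine ⟨L.sub_mem hf (L.zsmul_mem H.mem j), ?_, ?_⟩
    · simp only [Pi.sub_apply, Pi.smul_apply, Finset.sum_sub_distrib,
        ← Finset.smul_sum, H.sum_zero, smul_zero, sub_zero, hs]
    · rw [sub_dotProduct, dotProduct_sub, dotProduct_sub, smul_dotProduct, dotProduct_smul,
        smul_dotProduct, dotProduct_smul, hfN, dotProduct_comm f h]
      simp only [zsmul_eq_mul]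
      linear_combination (j : ℚ) * hc'
  have h3 : ∀ j : ℤ, 0 ≤ j * (j - c) := by
    intro j
    obtain ⟨m1, m2, m3⟩ := h2 j
    have h4 := hmin _ m1 m2
    rw [m3] at h4
    have h5 : 0 ≤ (h ⬝ᵥ h) * ((j : ℚ) * (j - c)) := by linarith
    have h6 := nonneg_of_mul_nonneg_right h5 hh
    exact_mod_cast h6
  have h4 := h3 1
  have h5 := h3 (-1)
  have h6 : c ≠ -1 := by
    intro h7
    obtain ⟨m1, m2, m3⟩ := h2 (-1)
    rw [h7] at m3
    have h8 := hmaxf (f - (-1 : ℤ) • h) ⟨m1, m2, by rw [m3]; norm_num⟩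
    simp only [neg_smul, one_smul, sub_neg_eq_add, add_dotProduct] at h8
    linarith
  have h7 : c = 0 ∨ c = 1 := by omega
  rw [h1]
  rcases h7 with h8 | h8 <;> rw [h8] <;> norm_num

end Pool.Agent.PrimePow.CC
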