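import Pool.Agent.PrimePow.Comb4

/-!
# Reflections of lattices of functions: the conclusion
-/

set_option autoImplicit false
set_option linter.unusedSectionVars false

namespace Pool.Agent.PrimePow.CC

variable {Ω : Type*} [Fintype Ω] {L : AddSubgroup (Ω → ℚ)} {h h' f v θ : Ω → ℚ}
  {π π' : Equiv.Perm Ω} {e : Ω → ℚ} {a : ℕ}

/-- a constant integer function with small sum is zero -/
theorem sum_const (hL : Lat L) (hf : f ∈ L) (hc : ∀ ω ω', f ω = f ω') {m : ℤ}
    (hm : ∑ ω, f ω = m) (h1 : |m| < Fintype.card Ω) : m = 0 := by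
  obtain ⟨ω₀⟩ : Nonempty Ω := by
    by_contra hne
    rw [not_nonempty_iff] at hne
    rw [Fintype.card_eq_zero] at h1
    exact absurd h1 (not_lt.2 (by simp))
  obtain ⟨z, hz⟩ := hL.int f hf ω₀
  have h2 : ∑ ω, f ω = Fintype.card Ω * z := by
    rw [Finset.sum_congr rfl (fun ω _ => hc ω ω₀), Finset.sum_const, Finset.card_univ,
      nsmul_eq_mul, hz]
  rw [hm] at h2
  have h3 : m = Fintype.card Ω * z := by exact_mod_cast h2
  by_cases hz0 : z = 0
  · rw [h3, hz0, mul_zero]
  · exfalso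
    rw [h3, abs_mul] at h1
    have h4 : 1 ≤ |z| := Int.one_le_abs hz0
    have h5 : |(Fintype.card Ω : ℤ)| = Fintype.card Ω := abs_of_nonneg (Int.natCast_nonneg _)
    rw [h5] at h1
    nlinarith

section

variable (D : Dat L e a) (hv : Gen v) (Hθ : Rt L θ)
  (hmax : ∀ h, Rt L h → rt h ⬝ᵥ v ≤ rt θ ⬝ᵥ v)
  {n : (Ω → ℚ) → ℕ} (hn : rt θ = ∑ b ∈ (Simp.fin L v).toFinset, n b • rt b)
include D hv Hθ hmax hn

/-- a minuscule element which is not constant is a fundamental weight -/
theorem fund (hf : f ∈ L) (hm : ∀ h, Pos L v h → rt h ⬝ᵥ f = 0 ∨ rt h ⬝ᵥ f = 1)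
    (hc : ¬ ∀ ω ω', f ω = f ω') :
    ∃ b, Simp L v b ∧ rt b ⬝ᵥ f = 1 ∧ ∀ c, Simp L v c → c ≠ b → rt c ⬝ᵥ f = 0 := by
  classical
  have hdom : ∀ u, Pos L v u → 0 ≤ u ⬝ᵥ f := by
    intro u hu
    have h1 : 0 ≤ rt u ⬝ᵥ f := by
      rcases hm u hu with h2 | h2 <;> rw [h2]
      exact zero_le_one
    rw [rt_dot] at h1
    exact nonneg_of_mul_nonneg_right h1 (div_pos two_pos hu.1.sq_pos)
  have hθf : rt θ ⬝ᵥ f = 1 := by
    rcases hm θ (top_pos D hv Hθ hmax) with h1 | h1
    · exfalso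
      apply hc
      have h2 : θ ⬝ᵥ f = 0 := by
        rw [rt_dot] at h1
        rcases mul_eq_zero.1 h1 with h2 | h2
        · exact absurd h2 (div_pos two_pos Hθ.sq_pos).ne'
        · exact h2
      exact D.toLat.const hf fun u π hu => top_all D hv Hθ hmax hdom h2 ⟨π, hu⟩
    · exact h1
  rw [hn, sum_dotProduct] at hθf
  have hnn : ∀ b ∈ (Simp.fin L v).toFinset, 0 ≤ (n b • rt b) ⬝ᵥ f := by
    intro b hb
    rw [(Simp.fin L v).mem_toFinset] at hb
    rw [smul_dotProduct, nsmul_eq_mul]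
    refine mul_nonneg (Nat.cast_nonneg _) ?_
    rcases hm b hb.1 with h2 | h2 <;> rw [h2]
    exact zero_le_one
  have hge : ∀ b, Simp L v b → rt b ⬝ᵥ f ≠ 0 → 1 ≤ (n b • rt b) ⬝ᵥ f := by
    intro b hb hb0
    rcases hm b hb.1 with h2 | h2
    · exact absurd h2 hb0
    · rw [smul_dotProduct, h2, nsmul_eq_mul, mul_one]
      have h3 : 1 ≤ n b := Nat.one_le_iff_ne_zero.2 (full_support D hv Hθ hmax hn hb)
      exact_mod_cast h3
  obtain ⟨b, hb, hb0⟩ : ∃ b, Simp L v b ∧ rt b ⬝ᵥ f ≠ 0 := by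
    by_contra hcon
    push Not at hcon
    rw [Finset.sum_eq_zero] at hθf
    · exact zero_ne_one hθf
    · intro b hb
      rw [(Simp.fin L v).mem_toFinset] at hb
      rw [smul_dotProduct, hcon b hb, smul_zero]
  refine ⟨b, hb, ?_, ?_⟩
  · rcases hm b hb.1 with h2 | h2
    · exact absurd h2 hb0
    · exact h2
  · intro c hcs hcb
    by_contra hc0
    have h1 : (n b • rt b) ⬝ᵥ f + (n c • rt c) ⬝ᵥ f ≤
        ∑ b ∈ (Simp.fin L v).toFinset, (n b • rt b) ⬝ᵥ f := by
      rw [← Finset.sum_pair (f := fun b => (n b • rt b) ⬝ᵥ f) (Ne.symm hcb)]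
      refine Finset.sum_le_sum_of_subset_of_nonneg ?_ fun i hi _ => hnn i hi
      intro x hx
      rw [(Simp.fin L v).mem_toFinset]
      rcases Finset.mem_insert.1 hx with rfl | hx
      · exact hb
      · rw [Finset.mem_singleton.1 hx]
        exact hcs
    rw [hθf] at h1
    have h2 := hge b hb hb0
    have h3 := hge c hcs hc0
    linarith

end

/-- the lattice spans everything -/
theorem span_top (D : Dat L e a) : Submodule.span ℚ (L : Set (Ω → ℚ)) = ⊤ := by
  classical
  by_cases hcard : Fintype.card Ω ≤ 1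
  · rw [eq_top_iff]
    intro f _
    have := Fintype.card_le_one_iff_subsingleton.1 hcard
    by_cases hne : Nonempty Ω
    · obtain ⟨ω⟩ := hne
      have h1 : f = f ω • (fun _ => (1 : ℚ)) := by
        funext x
        rw [Pi.smul_apply, smul_eq_mul, mul_one, Subsingleton.elim x ω]
      rw [h1]
      exact Submodule.smul_mem _ _ (Submodule.subset_span D.one)
    · rw [not_nonempty_iff] at hne
      rw [Subsingleton.elim f 0]
      exact zero_mem _
  push Not at hcard
  obtain ⟨v, hv⟩ := exists_generic Ω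
  -- there is a root
  obtain ⟨h₀, H₀⟩ : ∃ h, Rt L h := by
    by_contra hcon
    push Not at hcon
    obtain ⟨x, y, hxy⟩ := Fintype.one_lt_card_iff.1 hcard
    have h1 := D.tr {x} ⟨x, rfl⟩ fun h π H => absurd ⟨π, H⟩ (hcon h)
    have h2 : y ∈ ({x} : Set Ω) := h1 ▸ Set.mem_univ y
    exact hxy (Set.mem_singleton_iff.1 h2).symm
  obtain ⟨θ, Hθ, hmax⟩ := Set.exists_max_image _ (fun u => rt u ⬝ᵥ v) (Rt.fin L) ⟨h₀, H₀⟩
  have hmax' : ∀ h, Rt L h → rt h ⬝ᵥ v ≤ rt θ ⬝ᵥ v := hmax
  obtain ⟨n, hn⟩ := exists_coef (top_pos D hv Hθ hmax')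
  choose F hF hFs hFm using fun k : ℤ => exists_min D v k
  have hFc : ∀ k : ℤ, 0 < k → k < Fintype.card Ω → ¬ ∀ ω ω', F k ω = F k ω' := by
    intro k hk hk' hc
    have h1 := sum_const D.toLat (hF k) hc (hFs k) (by rw [abs_of_pos hk]; exact hk')
    omega
  have hfund : ∀ k : ℤ, 0 < k → k < Fintype.card Ω → ∃ b, Simp L v b ∧ rt b ⬝ᵥ F k = 1 ∧
      ∀ c, Simp L v c → c ≠ b → rt c ⬝ᵥ F k = 0 := fun k hk hk' =>
    fund D hv Hθ hmax' hn (hF k) (hFm k) (hFc k hk hk')
  choose B hB hB1 hB0 using hfund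
  have hBne : ∀ j hj hj' k hk hk', j ≠ k → B j hj hj' ≠ B k hk hk' := by
    intro j hj hj' k hk hk' hjk hcon
    apply hjk
    have h1 : ∀ u, Pos L v u → rt u ⬝ᵥ (F j - F k) = 0 := by
      intro u hu
      refine pos_induction (p := fun u => u ⬝ᵥ (F j - F k) = 0) ?_ ?_ hu
      · intro u w h1 h2
        rw [add_dotProduct, h1, h2, add_zero]
      · intro c hc
        rw [dotProduct_sub, sub_eq_zero]
        by_cases h2 : c = B j hj hj'
        · rw [h2, hB1, hcon, hB1]
        · rw [hB0 j hj hj' c hc h2, hB0 k hk hk' c hc (hcon ▸ h2)]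
    have h2 : ∀ u, Pos L v u → u ⬝ᵥ (F j - F k) = 0 := by
      intro u hu
      have h3 := h1 u hu
      rw [rt_dot] at h3
      rcases mul_eq_zero.1 h3 with h4 | h4
      · exact absurd h4 (div_pos two_pos hu.1.sq_pos).ne'
      · exact h4
    have h3 := D.toLat.const (L.sub_mem (hF j) (hF k)) fun u π hu => by
      rcases Rt.pos_or hv ⟨π, hu⟩ with h4 | h4
      · exact h2 u h4
      · have h5 := h2 _ h4
        rwa [neg_dotProduct, neg_eq_zero] at h5
    have h4 := sum_const D.toLat (L.sub_mem (hF j) (hF k)) h3 (m := j - k) (by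
      simp only [Pi.sub_apply, Finset.sum_sub_distrib, hFs]
      push_cast
      ring) (by
      rw [abs_lt]
      constructor <;> omega)
    omega
  -- a linearly independent family
  obtain ⟨E, hE⟩ : ∃ E : Fin (Fintype.card Ω) → Ω → ℚ,
      E = fun k : Fin (Fintype.card Ω) => if (k : ℕ) = 0 then fun _ => 1 else F (k : ℕ) :=
    ⟨_, rfl⟩
  have hE0 : ∀ k : Fin (Fintype.card Ω), (k : ℕ) = 0 → E k = fun _ => 1 := by
    intro k hk
    rw [hE]
    exact if_pos hk
  have hE1 : ∀ k : Fin (Fintype.card Ω), (k : ℕ) ≠ 0 → E k = F (k : ℕ) := by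
    intro k hk
    rw [hE]
    exact if_neg hk
  have hEL : ∀ k, E k ∈ L := by
    intro k
    by_cases hk : (k : ℕ) = 0
    · rw [hE0 k hk]
      exact D.one
    · rw [hE1 k hk]
      exact hF _
  have hli : LinearIndependent ℚ E := by
    rw [Fintype.linearIndependent_iff]
    intro g hg
    have hne0 : ∀ k : Fin (Fintype.card Ω), (k : ℕ) ≠ 0 → g k = 0 := by
      intro k hk
      have hk1 : (0 : ℤ) < (k : ℕ) := by omega
      have hk2 : ((k : ℕ) : ℤ) < Fintype.card Ω := by
        have := k.2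
        omega
      have h1 := congrArg (fun u => rt (B k hk1 hk2) ⬝ᵥ u) hg
      simp only [dotProduct_zero] at h1
      rw [dotProduct_sum, Finset.sum_eq_single k, dotProduct_smul, hE1 k hk, hB1, smul_eq_mul,
        mul_one] at h1
      · exact h1
      · intro j _ hj
        rw [dotProduct_smul]
        by_cases hj0 : (j : ℕ) = 0
        · obtain ⟨π, hπ⟩ := (hB k hk1 hk2).1.1
          have h2 : B k hk1 hk2 ⬝ᵥ (fun _ => (1 : ℚ)) = 0 := by
            rw [dotProduct]
            simp only [mul_one]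
            exact hπ.sum_zero
          rw [hE0 j hj0, rt_dot, h2, mul_zero, smul_zero]
        · have hj1 : (0 : ℤ) < (j : ℕ) := by omega
          have hj2 : ((j : ℕ) : ℤ) < Fintype.card Ω := by
            have := j.2
            omega
          have hjk : ((j : ℕ) : ℤ) ≠ (k : ℕ) := by
            intro h2
            apply hj
            apply Fin.ext
            exact_mod_cast h2
          rw [hE1 j hj0, hB0 j hj1 hj2 _ (hB k hk1 hk2) (hBne _ _ _ _ _ _ hjk.symm), smul_zero]
      · intro h2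
        exact absurd (Finset.mem_univ k) h2
    intro k
    by_cases hk : (k : ℕ) = 0
    · rw [Finset.sum_eq_single k] at hg
      · obtain ⟨x, -⟩ := Fintype.one_lt_card_iff.1 hcard
        have h1 := congrFun hg x
        rw [hE0 k hk, Pi.smul_apply, smul_eq_mul, mul_one, Pi.zero_apply] at h1
        exact h1
      · intro j _ hj
        rw [hne0 j, zero_smul]
        intro h2
        apply hj
        apply Fin.ext
        rw [h2, hk]
      · intro h2
        exact absurd (Finset.mem_univ k) h2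
    · exact hne0 k hk
  have h1 := hli.span_eq_top_of_card_eq_finrank' (by
    rw [Fintype.card_fin, Module.finrank_fintype_fun_eq_card])
  rw [eq_top_iff, ← h1]
  refine Submodule.span_mono ?_
  rintro _ ⟨k, rfl⟩
  exact hEL k

end Pool.Agent.PrimePow.CC
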