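import Pool.Agent.PrimePow.Main
import Pool.Agent.PrimePow.Comb5

/-!
# Irreducible Lie algebras with an idempotent of rank prime to the dimension
-/

set_option autoImplicit false
set_option linter.unusedSectionVars false

namespace Pool.Agent.PrimePow

open Module Pool.Agent.CoprimeSig
open Pool.Agent.TypeIV.MX (IrrData)
open Pool.Agent.OddRank (trace_nondeg)

variable {K V : Type*} [Field K] [CharZero K] [AddCommGroup V] [Module K V]
  [FiniteDimensional K V] {g t : Submodule K (End K V)} {c : K}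

/-- transitivity of the Weyl group -/
theorem trans_wl (C : Cartan g t)
    (hirr : ∀ U : Submodule K V, (∀ x ∈ g, ∀ u ∈ U, x u ∈ U) → U = ⊥ ∨ U = ⊤) (c : K)
    (O : Set (Set (End K V))) (hO : O ⊆ Om t ⊤ ⊥ c) (hne : O.Nonempty)
    (hst : ∀ (x y : End K V) (α : End K V → K), Opp g t α x y → x ≠ 0 →
      ∀ A ∈ O, ∀ B ∈ Om t ⊤ ⊥ c, (Wt t ⊤ ⊥ c A).map (wl x y) = Wt t ⊤ ⊥ c B → B ∈ O) :
    O = Om t ⊤ ⊥ c := by
  have hW' : ∀ x ∈ g, ∀ w ∈ (⊤ : Submodule K V), x w ∈ (⊤ : Submodule K V) :=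
    fun _ _ _ _ => Submodule.mem_top
  have hW'' : ∀ x ∈ g, ∀ w ∈ (⊥ : Submodule K V), x w ∈ (⊥ : Submodule K V) := by
    intro x _ w hw
    rw [Submodule.mem_bot] at hw ⊢
    rw [hw, map_zero]
  have hW't : ∀ x ∈ t, ∀ w ∈ (⊤ : Submodule K V), x w ∈ (⊤ : Submodule K V) :=
    fun x hx => hW' x (C.le hx)
  obtain ⟨hfin, hsup, hind⟩ := weights C.toTor hW't (W'' := ⊥) c
  set U : Submodule K V := ⨆ A ∈ O, Wt t ⊤ ⊥ c A with hU
  have hle : ∀ A ∈ O, Wt t ⊤ ⊥ c A ≤ U := fun A hA => le_iSup₂_of_le A hA le_rfl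
  have hmaps : ∀ x : End K V, (∀ A ∈ O, ∀ u ∈ Wt t ⊤ ⊥ c A, x u ∈ U) → ∀ u ∈ U, x u ∈ U := by
    intro x hx
    have h1 : U ≤ U.comap x := iSup₂_le fun A hA u hu => hx A hA u hu
    exact fun u hu => h1 hu
  have hroot : ∀ x : End K V, ∀ α : End K V → K, IsRoot g t α x → ∀ u ∈ U, x u ∈ U := by
    intro x α hα
    refine hmaps x fun A hA u hu => ?_
    by_cases hxu : x u = 0
    · rw [hxu]
      exact U.zero_mem
    by_cases hε : ∃ ε ∈ EE t ⊥ c, α ε ≠ 0
    · obtain ⟨ε, hε, hαε⟩ := hε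
      have hx0 : x ≠ 0 := by
        rintro rfl
        exact hxu rfl
      obtain ⟨h2, y, P⟩ := exists_opp C hα hx0 hε.1 hε.2.1 hαε
      obtain ⟨φ, π, -, hπ, -⟩ := sym_act C.toTor hW't c (isSym_wl C hW' hW'' P)
      have h1 := hπ ⟨A, hO hA⟩
      simp only at h1
      have h3 := root_move C hW' hW'' P hε h2 hu hxu
      rw [h1] at h3
      exact hle _ (hst x y α P hx0 A hA _ (π ⟨A, hO hA⟩).2 h1) h3
    · push Not at hε
      refine hle A hA ⟨Submodule.mem_top, fun y hy => ?_⟩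
      have h2 : y (x u) = x (y u) := by
        have h3 := hα.root y hy.1
        rw [hε y hy, zero_smul, sub_eq_zero] at h3
        exact LinearMap.congr_fun h3 u
      rw [h2]
      refine ⟨fun h => by rw [(hu.2 y hy).1 h], fun h => by rw [(hu.2 y hy).2 h, map_zero]⟩
  have hg : ∀ x ∈ g, ∀ u ∈ U, x u ∈ U := by
    intro x hx
    let N : Submodule K (End K V) :=
      { carrier := {x | ∀ u ∈ U, x u ∈ U}
        add_mem' := fun {a b} ha hb u hu => U.add_mem (ha u hu) (hb u hu)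
        zero_mem' := fun u _ => U.zero_mem
        smul_mem' := fun r a ha u hu => U.smul_mem r (ha u hu) }
    have h1 : Submodule.span K {z | ∃ α, IsRoot g t α z} ≤ N :=
      Submodule.span_le.mpr fun z ⟨α, hz⟩ => hroot z α hz
    exact h1 (mem_span_roots C hx)
  have hUne : U ≠ ⊥ := by
    obtain ⟨A, hA⟩ := hne
    intro h0
    exact (hO hA).2 (le_bot_iff.mp (h0 ▸ hle A hA))
  have hUtop : U = ⊤ := (hirr U hg).resolve_left hUne
  refine Set.Subset.antisymm hO fun B hB => ?_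
  by_contra hBO
  have h1 := hind ⟨B, hB⟩
  have h2 : Wt t ⊤ ⊥ c B ≤ ⨆ (A : Om t ⊤ ⊥ c) (_ : A ≠ ⟨B, hB⟩),
      Wt t ⊤ ⊥ c (A : Set (End K V)) := by
    have h3 : Wt t ⊤ ⊥ c B ≤ U := by
      rw [hUtop]
      exact fun w hw => hw.1
    refine h3.trans (iSup₂_le fun A hA => ?_)
    refine le_iSup₂_of_le (f := fun (A : Om t ⊤ ⊥ c) (_ : A ≠ ⟨B, hB⟩) =>
      Wt t ⊤ ⊥ c (A : Set (End K V))) ⟨A, hO hA⟩ ?_ le_rfl
    intro hAB
    have h4 : A = B := congrArg Subtype.val hAB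
    exact hBO (h4 ▸ hA)
  exact hB.2 (le_bot_iff.mp (h1 le_rfl h2))

/-- the weight spaces are lines -/
theorem exists_frame (C : Cartan g t)
    (hirr : ∀ U : Submodule K V, (∀ x ∈ g, ∀ u ∈ U, x u ∈ U) → U = ⊥ ∨ U = ⊤)
    {e : End K V} (he : e ∈ t) (hee : e * e = e) (hc : LinearMap.trace K V e = c)
    (hcop : Nat.Coprime (finrank K (LinearMap.range e)) (finrank K V)) :
    (Om t ⊤ ⊥ c).Finite ∧ ∃ u : Basis (Om t ⊤ ⊥ c) K V,
      ∀ A : Om t ⊤ ⊥ c, u A ∈ Wt t ⊤ ⊥ c (A : Set (End K V)) := by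
  classical
  have hW't : ∀ x ∈ t, ∀ w ∈ (⊤ : Submodule K V), x w ∈ (⊤ : Submodule K V) :=
    fun _ _ _ _ => Submodule.mem_top
  have hW' : ∀ x ∈ g, ∀ w ∈ (⊤ : Submodule K V), x w ∈ (⊤ : Submodule K V) :=
    fun _ _ _ _ => Submodule.mem_top
  have hW'' : ∀ x ∈ g, ∀ w ∈ (⊥ : Submodule K V), x w ∈ (⊥ : Submodule K V) := by
    intro x _ w hw
    rw [Submodule.mem_bot] at hw ⊢
    rw [hw, map_zero]
  obtain ⟨hfin, hsup, hind⟩ := weights C.toTor hW't (W'' := ⊥) c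
  have hfin' : Finite (Om t ⊤ ⊥ c) := hfin
  have hft : Fintype (Om t ⊤ ⊥ c) := Fintype.ofFinite _
  have heE : e ∈ EE t ⊥ c := ⟨he, hee, fun w hw => by
      rw [Submodule.mem_bot] at hw
      rw [hw, map_zero], hc⟩
  -- multiplicities
  obtain ⟨b, hb⟩ := core_basis (Om t ⊤ ⊥ c) (fun A => Wt t ⊤ ⊥ c A) hind hsup
  let d : Om t ⊤ ⊥ c → ℕ := fun A => finrank K (Wt t ⊤ ⊥ c (A : Set (End K V)))
  have hd0 : ∀ A, d A ≠ 0 := by
    intro A h0
    exact A.2.2 (Submodule.finrank_eq_zero.mp h0)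
  have hconst : ∀ A₀ A, d A = d A₀ := by
    intro A₀ A
    have h1 := trans_wl C hirr c {B | ∃ h : B ∈ Om t ⊤ ⊥ c, d ⟨B, h⟩ = d A₀} (fun B hB => hB.1)
      ⟨A₀, A₀.2, rfl⟩ (by
        rintro x y α P hx0 B ⟨hB, hBd⟩ B' hB' hBB'
        refine ⟨hB', ?_⟩
        rw [← hBd]
        change finrank K (Wt t ⊤ ⊥ c B') = finrank K (Wt t ⊤ ⊥ c B)
        rw [← hBB', (isSym_wl C hW' hW'' P).rank])
    have h2 : (A : Set (End K V)) ∈
        {B | ∃ h : B ∈ Om t ⊤ ⊥ c, d ⟨B, h⟩ = d A₀} := h1.symm ▸ A.2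
    exact h2.2
  have hcard1 : ∀ A₀, Fintype.card (Om t ⊤ ⊥ c) * d A₀ = finrank K V := by
    intro A₀
    rw [← finrank_top K V, finrank_eq_card_basis b, Fintype.card_sigma]
    simp only [Fintype.card_fin]
    rw [Finset.sum_congr rfl fun A _ => hconst A₀ A, Finset.sum_const, Finset.card_univ,
      smul_eq_mul]
  have heb : ∀ x, e (b x : V) = if e ∈ (x.1 : Set (End K V)) then (b x : V) else 0 := by
    intro x
    have h1 := (hb x).2 e heE
    split_ifs with h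
    · exact h1.1 h
    · exact h1.2 h
  have hcard2 : ∀ A₀, Fintype.card {A : Om t ⊤ ⊥ c // e ∈ (A : Set (End K V))} * d A₀ =
      finrank K (LinearMap.range e) := by
    intro A₀
    rw [← Submodule.map_top,
      core_finrank_map b e (fun x => e ∈ (x.1 : Set (End K V))) heb]
    have h1 : Fintype.card {x : (Σ i : Om t ⊤ ⊥ c, Fin (d i)) //
        e ∈ (x.1 : Set (End K V))} =
        Fintype.card (Σ A : {A : Om t ⊤ ⊥ c // e ∈ (A : Set (End K V))}, Fin (d A.1)) := by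
      refine Fintype.card_congr
        { toFun := fun x => ⟨⟨x.1.1, x.2⟩, x.1.2⟩
          invFun := fun x => ⟨⟨x.1.1, x.2⟩, x.1.2⟩
          left_inv := fun x => rfl
          right_inv := fun x => rfl }
    rw [h1, Fintype.card_sigma]
    simp only [Fintype.card_fin]
    rw [Finset.sum_congr rfl fun A _ => hconst A₀ A.1, Finset.sum_const, Finset.card_univ,
      smul_eq_mul]
  have hd1 : ∀ A, d A = 1 := by
    intro A
    apply Nat.dvd_one.1
    rw [← hcop.gcd_eq_one]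
    exact Nat.dvd_gcd ⟨_, by rw [mul_comm, hcard2]⟩ ⟨_, by rw [mul_comm, hcard1]⟩
  -- weight vectors
  have hvec : ∀ A : Om t ⊤ ⊥ c, ∃ w ∈ Wt t ⊤ ⊥ c (A : Set (End K V)), w ≠ 0 := fun A =>
    (Submodule.ne_bot_iff _).mp A.2.2
  choose w hw hw0 using hvec
  have hli : LinearIndependent K w := hind.linearIndependent _ hw hw0
  refine ⟨hfin, ?_⟩
  by_cases hne : Nonempty (Om t ⊤ ⊥ c)
  · obtain ⟨A₀⟩ := hne
    have hcardW : Fintype.card (Om t ⊤ ⊥ c) = finrank K V := by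
      rw [← hcard1 A₀, hd1, mul_one]
    have hne : Nonempty (Om t ⊤ ⊥ c) := ⟨A₀⟩
    refine ⟨basisOfLinearIndependentOfCardEqFinrank hli hcardW, fun A => ?_⟩
    rw [coe_basisOfLinearIndependentOfCardEqFinrank]
    exact hw A
  · exfalso
    rw [not_nonempty_iff] at hne
    have h1 : finrank K V = 0 := by
      rw [← finrank_top K V, finrank_eq_card_basis b]
      simp
    have h2 : finrank K (LinearMap.range e) = 0 := by
      have h3 := Submodule.finrank_le (LinearMap.range e)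
      omega
    rw [h1, h2] at hcop
    exact absurd hcop (by decide)

end Pool.Agent.PrimePow
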